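import Pool.Agent.Y546.WQ.Stm3

/-!
# The relation modulo the square of `T - 1`, and a nonzero sum
-/

set_option autoImplicit false
set_option linter.all false

namespace Pool.Agent.Q262.MQ

open Pool.Agent.Y546.WQ NumberField IsDedekindDomain Polynomial

/-- the values at `1` -/
theorem der {p : ℕ} [Fact p.Prime] (hp2 : p ≠ 2) (a' : ℕ) (f : Polynomial (ZMod p)) (i : ℕ)
    (r : ZMod p) (hdv : (X - 1) ^ (p - 1) ∣ thPa p a' f - Polynomial.C r * X ^ i)
    (h1 : f.eval 1 ≠ 0) : (i : ZMod p) * f.eval 1 = f.derivative.eval 1 * hsa p a' 1 := by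
  have hpp : p.Prime := Fact.out
  have h3 : 3 ≤ p := by
    have := hpp.two_le
    omega
  have hsq : (X - 1) ^ 2 ∣ thPa p a' f - Polynomial.C r * X ^ i :=
    (pow_dvd_pow _ (by omega)).trans hdv
  obtain ⟨q, hq⟩ := hsq
  have e1 := congrArg (fun g : Polynomial (ZMod p) => g.eval 1) hq
  have e2 := congrArg (fun g : Polynomial (ZMod p) => (derivative g).eval 1) hq
  simp only [eval_sub, eval_mul, eval_C, eval_pow, eval_X, one_pow, mul_one, eval_one, sub_self,
    ne_eq, OfNat.ofNat_ne_zero, not_false_eq_true, zero_pow, zero_mul] at e1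
  have e3 : (derivative ((X - 1) ^ 2 * q)).eval 1 = 0 := by
    simp [derivative_mul, derivative_pow]
  rw [e3] at e2
  simp only [derivative_sub, derivative_mul, derivative_C, derivative_X_pow, zero_mul, zero_add,
    eval_sub, eval_mul, eval_C, eval_pow, eval_X, one_pow, mul_one, eval_natCast] at e2
  have hv : ∀ t : (ZMod p)ˣ, (f.comp (X ^ ((t⁻¹ : (ZMod p)ˣ) : ZMod p).val)).eval 1 =
      f.eval 1 := by
    intro t
    rw [eval_comp, eval_pow, eval_X, one_pow]
  have hd : ∀ t : (ZMod p)ˣ,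
      (derivative (f.comp (X ^ ((t⁻¹ : (ZMod p)ˣ) : ZMod p).val))).eval 1 =
        ((t⁻¹ : (ZMod p)ˣ) : ZMod p) * f.derivative.eval 1 := by
    intro t
    rw [derivative_comp, eval_mul, eval_comp, derivative_X_pow, eval_pow, eval_X, one_pow,
      eval_mul, eval_pow, eval_X, one_pow, mul_one, eval_C, ZMod.natCast_val, ZMod.cast_id', id]
  have k1 : (thPa p a' f).eval 1 = f.eval 1 ^ (hf p a').card := by
    unfold thPa
    rw [eval_prod, Finset.prod_congr rfl (fun t _ => hv t), Finset.prod_const]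
  have k2 : (derivative (thPa p a' f)).eval 1 * f.eval 1 =
      f.eval 1 ^ (hf p a').card * (f.derivative.eval 1 * hsa p a' 1) := by
    unfold thPa
    rw [derivative_prod_finset, eval_finset_sum, Finset.sum_mul]
    have : ∀ t ∈ hf p a', eval 1 ((∏ j ∈ (hf p a').erase t,
        f.comp (X ^ ((j⁻¹ : (ZMod p)ˣ) : ZMod p).val)) *
          derivative (f.comp (X ^ ((t⁻¹ : (ZMod p)ˣ) : ZMod p).val))) * eval 1 f =
        f.eval 1 ^ (hf p a').card * f.derivative.eval 1 * ((t⁻¹ : (ZMod p)ˣ) : ZMod p) := by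
      intro t ht
      rw [eval_mul, hd, eval_prod, Finset.prod_congr rfl (fun t _ => hv t), Finset.prod_const,
        Finset.card_erase_of_mem ht]
      have hc : 0 < (hf p a').card := Finset.card_pos.2 ⟨t, ht⟩
      obtain ⟨k, hk⟩ : ∃ k, (hf p a').card = k + 1 := ⟨(hf p a').card - 1, by omega⟩
      rw [hk, Nat.add_sub_cancel, pow_succ]
      ring
    rw [Finset.sum_congr rfl this, ← Finset.mul_sum]
    unfold hsa
    simp only [pow_one]
    ring
  rw [k1] at e1
  have hr : r = f.eval 1 ^ (hf p a').card := (sub_eq_zero.1 e1).symm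
  have hF : f.eval 1 ^ (hf p a').card ≠ 0 := pow_ne_zero _ h1
  have e4 : (derivative (thPa p a' f)).eval 1 = r * (i : ZMod p) := by
    rw [sub_eq_zero] at e2
    rw [e2]
  rw [e4, hr] at k2
  apply mul_left_cancel₀ hF
  rw [← k2]
  ring

section

variable (p : ℕ) [hp : Fact p.Prime]

noncomputable def W1 (a : ℕ) : ZMod p :=
  ∑ t : (ZMod p)ˣ, ((a * (t : ZMod p).val / p : ℕ) : ZMod p) * ((t⁻¹ : (ZMod p)ˣ) : ZMod p)

theorem val_pos_of_unit (t : (ZMod p)ˣ) : 0 < (t : ZMod p).val := by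
  rw [Nat.pos_iff_ne_zero]
  intro h
  rw [ZMod.val_eq_zero] at h
  exact t.ne_zero h

theorem W1_one : W1 p 1 = 0 := by
  unfold W1
  refine Finset.sum_eq_zero fun t _ => ?_
  rw [one_mul, Nat.div_eq_of_lt (ZMod.val_lt _), Nat.cast_zero, zero_mul]

theorem W1_succ (a : ℕ) (ha : 0 < a) (hap : a + 2 ≤ p) :
    W1 p (a + 1) = W1 p a + hsa p a 1 := by
  unfold W1 hsa hf
  rw [Finset.sum_filter, ← Finset.sum_add_distrib]
  refine Finset.sum_congr rfl fun t _ => ?_
  have hpp := hp.out.pos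
  have hv0 := val_pos_of_unit p t
  have hvp := ZMod.val_lt (t : ZMod p)
  rw [pow_one]
  set v := (t : ZMod p).val with hv
  have hval : ((a : ZMod p) * (t : ZMod p)).val = (a * v) % p := by
    rw [ZMod.val_mul, ZMod.val_natCast, ← hv, Nat.mod_mul_mod]
  rw [hval]
  have hne : v + (a * v) % p ≠ p := by
    intro h
    have h4 : p ∣ (a + 1) * v := by
      have h5 : (a + 1) * v = p * (a * v / p) + (v + (a * v) % p) := by
        have := Nat.div_add_mod (a * v) p
        nlinarith
      rw [h5, h]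
      exact ⟨a * v / p + 1, by ring⟩
    rcases (Nat.Prime.dvd_mul hp.out).mp h4 with h6 | h6
    · exact absurd (Nat.le_of_dvd (by omega) h6) (by omega)
    · exact absurd (Nat.le_of_dvd (by omega) h6) (by omega)
  have hmod := Nat.mod_lt (a * v) hpp
  have hdm := Nat.div_add_mod (a * v) p
  split_ifs with hc
  · have h7 : (a + 1) * v / p = a * v / p + 1 := by
      apply Nat.div_eq_of_lt_le
      · nlinarith
      · nlinarith
    rw [h7]; push_cast; ring
  · have h7 : (a + 1) * v / p = a * v / p := by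
      apply Nat.div_eq_of_lt_le
      · nlinarith
      · have : v + (a * v) % p < p := by omega
        nlinarith
    rw [h7]; ring

theorem W1_last (hp2 : p ≠ 2) : W1 p (p - 1) ≠ 0 := by
  have hpp := hp.out.two_le
  have h3 : 3 ≤ p := by omega
  have e1 : W1 p (p - 1) = ∑ t : (ZMod p)ˣ, (1 - ((t⁻¹ : (ZMod p)ˣ) : ZMod p)) := by
    unfold W1
    refine Finset.sum_congr rfl fun t _ => ?_
    have hv0 := val_pos_of_unit p t
    have hvp := ZMod.val_lt (t : ZMod p)
    have h7 : (p - 1) * (t : ZMod p).val / p = (t : ZMod p).val - 1 := by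
      obtain ⟨v, hv⟩ : ∃ v, (t : ZMod p).val = v + 1 := ⟨(t : ZMod p).val - 1, by omega⟩
      obtain ⟨q, hq⟩ : ∃ q, p = q + 1 := ⟨p - 1, by omega⟩
      rw [hv] at hvp ⊢
      clear hv hv0
      generalize p - 1 + 1 = s at *
      have hq' : p - 1 = q := by omega
      rw [hq', Nat.add_sub_cancel]
      apply Nat.div_eq_of_lt_le
      · rw [hq]; nlinarith
      · rw [hq] at hvp ⊢; nlinarith
    rw [h7, Nat.cast_sub (by omega), ZMod.natCast_val, ZMod.cast_id', id, Nat.cast_one, sub_mul,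
      one_mul, Units.mul_inv]
  have e2 : ∑ t : (ZMod p)ˣ, ((t⁻¹ : (ZMod p)ˣ) : ZMod p) = 0 := by
    have h1 : ∑ t : (ZMod p)ˣ, ((t⁻¹ : (ZMod p)ˣ) : ZMod p) = ∑ t : (ZMod p)ˣ, (t : ZMod p) :=
      Fintype.sum_equiv (Equiv.inv _) _ _ (fun t => rfl)
    rw [h1]
    have h2 := FiniteField.sum_pow_units (ZMod p) 1
    rw [Fintype.card_eq_nat_card, Nat.card_zmod, if_neg] at h2
    · simpa using h2
    · intro h
      have := Nat.le_of_dvd one_pos h
      omega
  rw [e1, Finset.sum_sub_distrib, e2, sub_zero, Finset.sum_const, Finset.card_univ,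
    ZMod.card_units, nsmul_one]
  intro h
  rw [ZMod.natCast_eq_zero_iff] at h
  have := Nat.le_of_dvd (by omega) h
  omega

theorem exists_hsa (hp2 : p ≠ 2) : ∃ a : ℕ, 0 < a ∧ a + 2 ≤ p ∧ hsa p a 1 ≠ 0 := by
  by_contra hcon
  push Not at hcon
  have hpp := hp.out.two_le
  have key : ∀ a : ℕ, 0 < a → a + 1 ≤ p → W1 p a = 0 := by
    intro a ha hap
    induction a with
    | zero => omega
    | succ a ih =>
      rcases Nat.eq_zero_or_pos a with h0 | h0
      · subst h0
        exact W1_one p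
      · rw [W1_succ p a h0 (by omega), ih h0 (by omega), zero_add]
        exact hcon a h0 (by omega)
  exact W1_last p hp2 (key (p - 1) (by omega) (by omega))

end

end Pool.Agent.Q262.MQ
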