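import Pool.Agent.Q262.MQ.Three

/-!
# The criteria of Mirimanoff and Furtwaengler over quadratic fields
-/

set_option autoImplicit false
set_option linter.all false

namespace Pool.Agent.Q262.MQ

open Pool.Agent.Y546.WQ NumberField IsDedekindDomain Polynomial

/-- scaling a solution in the first case, at the primes above `r` and `p` -/
theorem prepR {K : Type} [Field K] [NumberField K] {p : ℕ} (hp : p.Prime) (r : ℕ) (hr : r.Prime)
    {x y z : K}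
    (hx : x ≠ 0) (hy : y ≠ 0) (hz : z ≠ 0) (h : x ^ p + y ^ p + z ^ p = 0)
    (hv : ∀ v : HeightOneSpectrum (𝓞 K), ((p : ℕ) : 𝓞 K) ∈ v.asIdeal →
      v.valuation K x = v.valuation K y ∧ v.valuation K y = v.valuation K z) :
    ∃ (a : K) (X Y Z : 𝓞 K), a ≠ 0 ∧ algebraMap (𝓞 K) K X = a * x ∧
      algebraMap (𝓞 K) K Y = a * y ∧ algebraMap (𝓞 K) K Z = a * z ∧ Sol p K X Y Z ∧
      (∀ P : Ideal (𝓞 K), P.IsPrime → ((r : ℕ) : 𝓞 K) ∈ P → ¬ (X ∈ P ∧ Y ∈ P ∧ Z ∈ P)) := by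
  have hp0 : p ≠ 0 := hp.ne_zero
  have hr0 : r ≠ 0 := hr.ne_zero
  obtain ⟨T, hT⟩ := finite_primes (K := K) (r * p) (by positivity)
  obtain ⟨a, X, Y, Z, hXa, hYa, hZa, hn⟩ := scaleT (y := y) (z := z) hx T
  have hne : ∀ (P : Ideal (𝓞 K)), P.IsPrime → ((r * p : ℕ) : 𝓞 K) ∈ P →
      ∃ h0 : P ≠ ⊥, ∀ hP : P.IsPrime, (⟨P, hP, h0⟩ : HeightOneSpectrum (𝓞 K)) ∈ T := by
    intro P hP hm
    have h0 : P ≠ ⊥ := by
      rintro rfl
      rw [Ideal.mem_bot] at hm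
      have : (r * p : ℕ) = 0 := by exact_mod_cast hm
      rcases Nat.mul_eq_zero.1 this with h | h
      · exact hr0 h
      · exact hp0 h
    exact ⟨h0, fun hP' => hT _ hm⟩
  -- there is a prime above p
  obtain ⟨M, hM, hMp⟩ := exists_above (K := K) p hp
  have hmem2p : ∀ P : Ideal (𝓞 K), ((p : ℕ) : 𝓞 K) ∈ P → ((r * p : ℕ) : 𝓞 K) ∈ P := by
    intro P hP
    rw [Nat.cast_mul]
    exact P.mul_mem_left _ hP
  have ha : a ≠ 0 := by
    rintro rfl
    rw [zero_mul] at hXa hYa hZa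
    have h1 : X = 0 := RingOfIntegers.coe_injective (by rw [map_zero]; exact hXa)
    have h2 : Y = 0 := RingOfIntegers.coe_injective (by rw [map_zero]; exact hYa)
    have h3 : Z = 0 := RingOfIntegers.coe_injective (by rw [map_zero]; exact hZa)
    obtain ⟨h0, h4⟩ := hne M hM (hmem2p M hMp)
    apply hn _ (h4 hM)
    rw [h1, h2, h3]
    exact ⟨zero_mem _, zero_mem _, zero_mem _⟩
  have hX0 : X ≠ 0 := by
    rintro rfl
    rw [map_zero] at hXa
    exact mul_ne_zero ha hx hXa.symm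
  have hY0 : Y ≠ 0 := by
    rintro rfl
    rw [map_zero] at hYa
    exact mul_ne_zero ha hy hYa.symm
  have hZ0 : Z ≠ 0 := by
    rintro rfl
    rw [map_zero] at hZa
    exact mul_ne_zero ha hz hZa.symm
  have hXYZ : X ^ p + Y ^ p + Z ^ p = 0 := by
    apply RingOfIntegers.coe_injective
    rw [map_zero, map_add, map_add, map_pow, map_pow, map_pow]
    have e : a ^ p * (x ^ p + y ^ p + z ^ p) = 0 := by rw [h, mul_zero]
    rw [hXa, hYa, hZa, mul_pow, mul_pow, mul_pow]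
    linear_combination e
  refine ⟨a, X, Y, Z, ha, hXa, hYa, hZa, ⟨hX0, hY0, hZ0, hXYZ, ?_⟩, ?_⟩
  · intro P hP hpP
    obtain ⟨h0, h4⟩ := hne P hP (hmem2p P hpP)
    have h5 := hn _ (h4 hP)
    obtain ⟨h1, h2⟩ := hv ⟨P, hP, h0⟩ hpP
    have e : ∀ (w : K) (W : 𝓞 K), algebraMap (𝓞 K) K W = a * w →
        (W ∈ P ↔ (⟨P, hP, h0⟩ : HeightOneSpectrum (𝓞 K)).valuation K a *
          (⟨P, hP, h0⟩ : HeightOneSpectrum (𝓞 K)).valuation K w < 1) := by
      intro w W hW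
      rw [← map_mul, ← hW]
      exact ((⟨P, hP, h0⟩ : HeightOneSpectrum (𝓞 K)).valuation_lt_one_iff_mem (K := K) W).symm
    have e1 : X ∈ P ↔ Y ∈ P := by rw [e x X hXa, e y Y hYa, h1]
    have e2 : Y ∈ P ↔ Z ∈ P := by rw [e y Y hYa, e z Z hZa, h2]
    change ¬ (X ∈ P ∧ Y ∈ P ∧ Z ∈ P) at h5
    tauto
  · intro P hP h2P
    have h3 : ((r * p : ℕ) : 𝓞 K) ∈ P := by
      rw [Nat.cast_mul]
      exact P.mul_mem_right _ h2P
    obtain ⟨h0, h4⟩ := hne P hP h3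
    exact hn _ (h4 hP)

section

variable {K : Type} [Field K] [NumberField K]

/-- Furtwaengler's criterion -/
theorem furt {p : ℕ} (hp : p.Prime) (hp2 : p ≠ 2) (r : ℕ) (hr : r.Prime) (hrp : r ≠ p)
    (hW : ¬ p ^ 2 ∣ r ^ (p - 1) - 1) (hK : Module.finrank ℚ K = 2) {x y z : K}
    (hx : x ≠ 0) (hy : y ≠ 0) (hz : z ≠ 0) (h : x ^ p + y ^ p + z ^ p = 0)
    (hv : ∀ v : HeightOneSpectrum (𝓞 K), ((p : ℕ) : 𝓞 K) ∈ v.asIdeal →
      v.valuation K x = v.valuation K y ∧ v.valuation K y = v.valuation K z) :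
    ∃ v : HeightOneSpectrum (𝓞 K), ((r : ℕ) : 𝓞 K) ∈ v.asIdeal ∧
      v.valuation K y ≤ v.valuation K x := by
  have hfact : Fact p.Prime := ⟨hp⟩
  obtain ⟨E, _, _, ⟨c⟩⟩ := Y978.WQ.main p hp2
  obtain ⟨σ, hN, hT⟩ := Pool.Agent.Y546.SG.exists_conj hK
  obtain ⟨a, X, Y, Z, ha, hXa, hYa, hZa, s, hn⟩ := prepR hp r hr hx hy hz h hv
  by_contra hcon
  push Not at hcon
  refine noDiv hp2 r hr hrp hW hK σ hN hT c s fun P hP hrP => ?_
  have h0 : P ≠ ⊥ := by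
    rintro rfl
    rw [Ideal.mem_bot] at hrP
    have : r = 0 := by exact_mod_cast hrP
    exact hr.ne_zero this
  have hlt := hcon ⟨P, hP, h0⟩ hrP
  have e : ∀ (w : K) (W : 𝓞 K), algebraMap (𝓞 K) K W = a * w →
      (⟨P, hP, h0⟩ : HeightOneSpectrum (𝓞 K)).valuation K (algebraMap (𝓞 K) K W) =
        (⟨P, hP, h0⟩ : HeightOneSpectrum (𝓞 K)).valuation K a *
          (⟨P, hP, h0⟩ : HeightOneSpectrum (𝓞 K)).valuation K w := by
    intro w W hW
    rw [hW, map_mul]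
  have ha' : (⟨P, hP, h0⟩ : HeightOneSpectrum (𝓞 K)).valuation K a ≠ 0 :=
    (Valuation.ne_zero_iff _).2 ha
  have hXP : X ∈ P := by
    have h1 := (⟨P, hP, h0⟩ : HeightOneSpectrum (𝓞 K)).valuation_lt_one_iff_mem (K := K) X
    refine h1.1 ?_
    rw [e x X hXa]
    refine lt_of_lt_of_le ?_ ((⟨P, hP, h0⟩ : HeightOneSpectrum (𝓞 K)).valuation_le_one (K := K) Y)
    rw [e y Y hYa]
    exact (mul_lt_mul_iff_right₀ (zero_lt_iff.2 ha')).2 hlt
  have hnn := hn P hP hrP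
  have hYP : Y ∉ P := by
    intro hY
    apply hnn
    refine ⟨hXP, hY, ?_⟩
    have : Z ^ p ∈ P := by
      have e1 : Z ^ p = -(X ^ p + Y ^ p) := by linear_combination s.eq
      rw [e1]
      exact P.neg_mem (P.add_mem (P.pow_mem_of_mem hXP p hp.pos) (P.pow_mem_of_mem hY p hp.pos))
    exact hP.mem_of_pow_mem p this
  refine ⟨hXP, hYP, fun hZ => hnn ⟨hXP, ?_, hZ⟩⟩
  have : Y ^ p ∈ P := by
    have e1 : Y ^ p = -(X ^ p + Z ^ p) := by linear_combination s.eq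
    rw [e1]
    exact P.neg_mem (P.add_mem (P.pow_mem_of_mem hXP p hp.pos) (P.pow_mem_of_mem hZ p hp.pos))
  exact hP.mem_of_pow_mem p this

/-- Mirimanoff's criterion -/
theorem mirim {p : ℕ} (hp : p.Prime) (h5 : 5 ≤ p) (hW : ¬ p ^ 2 ∣ 3 ^ (p - 1) - 1)
    (hK : Module.finrank ℚ K = 2)
    (hd : 3 ∣ NumberField.discr K ∨ (NumberField.discr K % 3 = 1 ∧
      ((7 ≤ p ∧ p - 3 ∉ irr p) ∨
        (11 ≤ p ∧ (¬ ∃ s : ZMod p, s ≠ 0 ∧ s ^ 2 = -7 * (NumberField.discr K : ZMod p)) ∧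
        ¬ ∃ s : ZMod p, s ≠ 0 ∧ s ^ 2 = -15 * (NumberField.discr K : ZMod p)))))
    {x y z : K} (hx : x ≠ 0) (hy : y ≠ 0) (hz : z ≠ 0) (h : x ^ p + y ^ p + z ^ p = 0)
    (hv : ∀ v : HeightOneSpectrum (𝓞 K), ((p : ℕ) : 𝓞 K) ∈ v.asIdeal →
      v.valuation K x = v.valuation K y ∧ v.valuation K y = v.valuation K z) :
    ∃ s : ZMod p, s ≠ 0 ∧ s ^ 2 = -3 * (NumberField.discr K : ZMod p) := by
  have hfact : Fact p.Prime := ⟨hp⟩
  have hp2 : p ≠ 2 := by omega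
  have hodd : Odd p := hp.odd_of_ne_two hp2
  by_contra h3d
  obtain ⟨E, _, _, ⟨c⟩⟩ := Y978.WQ.main p hp2
  obtain ⟨σ, hN, hT⟩ := Pool.Agent.Y546.SG.exists_conj hK
  obtain ⟨a, X, Y, Z, ha, hXa, hYa, hZa, s, hn⟩ := prepR hp 3 Nat.prime_three hx hy hz h hv
  have hd3 : (NumberField.discr K : ZMod 3) = 0 ∨ (NumberField.discr K : ZMod 3) = 1 := by
    rcases hd with hd | ⟨hd, -⟩
    · left
      exact (ZMod.intCast_zmod_eq_zero_iff_dvd _ 3).2 (by exact_mod_cast hd)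
    · right
      have : ((NumberField.discr K : ℤ) : ZMod 3) = ((1 : ℤ) : ZMod 3) := by
        rw [ZMod.intCast_eq_intCast_iff]
        exact hd
      simpa using this
  have hs : Sol3 p K X Y Z := ⟨s, fun P hP h3P =>
    ⟨lin_3 hK σ hN hT hd3 P hP h3P hodd s.eq, hn P hP h3P⟩⟩
  have n2 : (2 : ZMod p) ≠ 0 := by
    have := natc_ne hp 2 (fun h => by have := Nat.le_of_dvd (by norm_num) h; omega)
    exact_mod_cast this
  have n3 : (3 : ZMod p) ≠ 0 := by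
    have := natc_ne hp 3 (fun h => by have := Nat.le_of_dvd (by norm_num) h; omega)
    exact_mod_cast this
  -- one norm divisible by three, the others equal
  have cI : ∀ U V W : 𝓞 K, Sol3 p K U V W → ((Algebra.norm ℤ U : ℤ) : ZMod 3) = 0 →
      ((Algebra.norm ℤ V : ℤ) : ZMod 3) ≠ 0 →
      ((Algebra.norm ℤ W : ℤ) : ZMod 3) = (Algebra.norm ℤ V : ℤ) → False := by
    intro U V W s1 a1 b1 g1
    have k1 := (pats h5 hW hK σ hN hT c s1 _ _ _ rfl rfl rfl).1 a1 b1 g1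
    have k2 := (pats h5 hW hK σ hN hT c s1.swap _ _ _ rfl rfl rfl).1 a1 (by rw [g1]; exact b1)
      g1.symm
    have A0 := (datC σ hK hN hT s1.sol).A0
    have e3 : (2 : ZMod p) * (2 * (Algebra.norm ℤ U : ℤ)) = 0 := by
      linear_combination k1 + k2
    exact mul_ne_zero n2 (mul_ne_zero n2 A0) e3
  -- one norm divisible by three, the others opposite
  have cII : ∀ U V W : 𝓞 K, Sol3 p K U V W → (NumberField.discr K : ZMod 3) = 1 →
      ((Algebra.norm ℤ U : ℤ) : ZMod 3) = 0 →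
      ((Algebra.norm ℤ V : ℤ) : ZMod 3) ≠ 0 →
      ((Algebra.norm ℤ W : ℤ) : ZMod 3) = -(Algebra.norm ℤ V : ℤ) → False := by
    intro U V W s1 d1 a1 b1 g1
    have g1' : ((Algebra.norm ℤ W : ℤ) : ZMod 3) ≠ 0 := by
      rw [g1]
      exact neg_ne_zero.2 b1
    have k1 := (pats h5 hW hK σ hN hT c s1 _ _ _ rfl rfl rfl).2.2.1 a1 b1 g1
    have k2 := (pats h5 hW hK σ hN hT c s1.swap _ _ _ rfl rfl rfl).2.2.1 a1 g1'
      (by rw [g1, neg_neg])
    have k3 := (pats h5 hW hK σ hN hT c s1.rot _ _ _ rfl rfl rfl).2.2.2.2.2 b1 g1 a1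
    have A0 := (datC σ hK hN hT s1.sol).A0
    obtain ⟨A, hA⟩ : ∃ A : ZMod p, A = (Algebra.norm ℤ U : ℤ) := ⟨_, rfl⟩
    obtain ⟨B, hB⟩ : ∃ B : ZMod p, B = (Algebra.norm ℤ V : ℤ) := ⟨_, rfl⟩
    obtain ⟨G, hG⟩ : ∃ G : ZMod p, G = (Algebra.norm ℤ W : ℤ) := ⟨_, rfl⟩
    rw [← hA, ← hB, ← hG] at k1 k2 k3
    rw [← hA] at A0
    have e1 : B = G := by
      apply mul_left_cancel₀ n2
      linear_combination k3
    have e2 : G = 2 * A := by
      linear_combination -k1 - 2 * e1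
    rcases hd with hd | ⟨-, ⟨h7, hd⟩ | ⟨h11, hd, -⟩⟩
    · have : (NumberField.discr K : ZMod 3) = 0 :=
        (ZMod.intCast_zmod_eq_zero_iff_dvd _ 3).2 (by exact_mod_cast hd)
      rw [this] at d1
      exact absurd d1 (by decide)
    · have hreg : Reg p 3 := reg_of Y61.WQ.mainBER 3 (by decide) le_rfl (by omega) hd
      have r1 := datR h7 hK σ hN hT c s1.sol hreg A B G hA hB hG
      rw [e1, e2] at r1
      have e4 : (2 : ZMod p) * (2 * (3 * A ^ 3)) = 0 := by linear_combination r1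
      exact mul_ne_zero n2 (mul_ne_zero n2 (mul_ne_zero n3 (pow_ne_zero 3 A0))) e4
    · obtain ⟨m, hm⟩ := discPair hK σ hN hT s1.sol.rot
      rw [← hA, ← hB, ← hG] at hm
      rw [e1, e2] at hm
      have n7 : (7 : ZMod p) ≠ 0 := by
        have := natc_ne hp 7 (fun h => by have := Nat.le_of_dvd (by norm_num) h; omega)
        exact_mod_cast this
      exact hd (sqN 7 A m _ n7 A0 (by linear_combination -hm))
  -- two norms divisible by three
  have cIII : ∀ U V W : 𝓞 K, Sol3 p K U V W → (NumberField.discr K : ZMod 3) = 1 →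
      ((Algebra.norm ℤ U : ℤ) : ZMod 3) = 0 →
      ((Algebra.norm ℤ V : ℤ) : ZMod 3) = 0 →
      ((Algebra.norm ℤ W : ℤ) : ZMod 3) ≠ 0 → False := by
    intro U V W s1 d1 a1 b1 g1
    have k1 := (pats h5 hW hK σ hN hT c s1 _ _ _ rfl rfl rfl).2.1 a1 b1 g1
    have k2 := (pats h5 hW hK σ hN hT c s1.swap _ _ _ rfl rfl rfl).2.2.2.1 a1 g1 b1
    have A0 := (datC σ hK hN hT s1.sol).A0
    obtain ⟨A, hA⟩ : ∃ A : ZMod p, A = (Algebra.norm ℤ U : ℤ) := ⟨_, rfl⟩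
    obtain ⟨B, hB⟩ : ∃ B : ZMod p, B = (Algebra.norm ℤ V : ℤ) := ⟨_, rfl⟩
    obtain ⟨G, hG⟩ : ∃ G : ZMod p, G = (Algebra.norm ℤ W : ℤ) := ⟨_, rfl⟩
    rw [← hA, ← hB, ← hG] at k1 k2
    rw [← hA] at A0
    have e1 : B = A := by
      apply mul_left_cancel₀ n2
      linear_combination -k1
    have e2 : 2 * G = 3 * A := by
      linear_combination -k2 + e1
    rcases hd with hd | ⟨-, ⟨h7, hd⟩ | ⟨h11, -, hd⟩⟩
    · have : (NumberField.discr K : ZMod 3) = 0 :=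
        (ZMod.intCast_zmod_eq_zero_iff_dvd _ 3).2 (by exact_mod_cast hd)
      rw [this] at d1
      exact absurd d1 (by decide)
    · have hreg : Reg p 3 := reg_of Y61.WQ.mainBER 3 (by decide) le_rfl (by omega) hd
      have r1 := datR h7 hK σ hN hT c s1.sol.rot.rot hreg G A B hG hA hB
      rw [e1] at r1
      have hGA : 2 * (G - A) = A := by linear_combination e2
      have e5 : (2 * (G - A)) * (4 * A ^ 2 - 6 * A * (2 * G) - 12 * A ^ 2 +
          2 * (2 * (G - A)) ^ 2) = 0 := by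
        linear_combination 8 * r1
      rw [hGA, e2] at e5
      have e4 : (2 : ZMod p) * (2 * (2 * (3 * A ^ 3))) = 0 := by
        linear_combination -e5
      exact mul_ne_zero n2 (mul_ne_zero n2 (mul_ne_zero n2
        (mul_ne_zero n3 (pow_ne_zero 3 A0)))) e4
    · obtain ⟨m, hm⟩ := discPair hK σ hN hT s1.sol
      rw [← hA, ← hB, ← hG] at hm
      rw [e1] at hm
      have n5 : (5 : ZMod p) ≠ 0 := by
        have := natc_ne hp 5 (fun h => by have := Nat.le_of_dvd (by norm_num) h; omega)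
        exact_mod_cast this
      have n15 : (15 : ZMod p) ≠ 0 := by
        have : (15 : ZMod p) = 3 * 5 := by norm_num
        rw [this]
        exact mul_ne_zero n3 n5
      exact hd (sqN 15 A (2 * m) _ n15 A0
        (by linear_combination (-4 : ZMod p) * hm + (2 * G - 5 * A) * e2))
  -- all norms equal
  have cIV : ((Algebra.norm ℤ X : ℤ) : ZMod 3) ≠ 0 →
      ((Algebra.norm ℤ Y : ℤ) : ZMod 3) = (Algebra.norm ℤ X : ℤ) →
      ((Algebra.norm ℤ Z : ℤ) : ZMod 3) = (Algebra.norm ℤ X : ℤ) → False := by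
    intro a1 b1 g1
    have k1 := (pats h5 hW hK σ hN hT c hs _ _ _ rfl rfl rfl).2.2.2.2.1 a1 b1 g1
    have k2 := (pats h5 hW hK σ hN hT c hs.rot _ _ _ rfl rfl rfl).2.2.2.2.1
      (by rw [b1]; exact a1) (by rw [b1, g1]) (by rw [b1])
    have A0 := (datC σ hK hN hT s).A0
    obtain ⟨A, hA⟩ : ∃ A : ZMod p, A = (Algebra.norm ℤ X : ℤ) := ⟨_, rfl⟩
    obtain ⟨B, hB⟩ : ∃ B : ZMod p, B = (Algebra.norm ℤ Y : ℤ) := ⟨_, rfl⟩
    obtain ⟨G, hG⟩ : ∃ G : ZMod p, G = (Algebra.norm ℤ Z : ℤ) := ⟨_, rfl⟩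
    rw [← hA, ← hB, ← hG] at k1 k2
    rw [← hA] at A0
    have e1 : B = A := by
      apply mul_left_cancel₀ n2
      linear_combination -k1
    have e2 : G = A := by
      apply mul_left_cancel₀ n2
      linear_combination -k2 + 2 * e1
    obtain ⟨m, hm⟩ := discPair hK σ hN hT s
    rw [← hA, ← hB, ← hG] at hm
    rw [e1, e2] at hm
    exact h3d (sqN 3 A m _ n3 A0 (by linear_combination -hm))
  -- not all norms are divisible by three
  have hne : ¬ (((Algebra.norm ℤ X : ℤ) : ZMod 3) = 0 ∧ ((Algebra.norm ℤ Y : ℤ) : ZMod 3) = 0 ∧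
      ((Algebra.norm ℤ Z : ℤ) : ZMod 3) = 0) := by
    rintro ⟨a1, a2, a3⟩
    obtain ⟨P, hP, hP3⟩ := exists_above (K := K) 3 Nat.prime_three
    have hmem : ∀ w : 𝓞 K, ((Algebra.norm ℤ w : ℤ) : ZMod 3) = 0 → w ∈ P ∨ w ∈ P.comap σ := by
      intro w hw
      obtain ⟨u, hu⟩ := (ZMod.intCast_zmod_eq_zero_iff_dvd _ 3).1 hw
      have h1 : w * σ w ∈ P := by
        rw [← hN, hu, Int.cast_mul]
        refine P.mul_mem_right _ ?_
        exact_mod_cast hP3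
      rcases hP.mem_or_mem h1 with h2 | h2
      · exact Or.inl h2
      · exact Or.inr h2
    have hP3σ : ((3 : ℕ) : 𝓞 K) ∈ P.comap σ := by
      rw [Ideal.mem_comap, map_natCast]
      exact hP3
    have key : ∀ (R : Ideal (𝓞 K)), R.IsPrime → ((3 : ℕ) : 𝓞 K) ∈ R →
        ¬ (X ∈ R ∧ Y ∈ R) ∧ ¬ (Y ∈ R ∧ Z ∈ R) ∧ ¬ (X ∈ R ∧ Z ∈ R) := by
      intro R hR h2R
      obtain ⟨h1, h2⟩ := hs.three R hR h2R
      refine ⟨fun h => h2 ⟨h.1, h.2, ?_⟩, fun h => h2 ⟨?_, h.1, h.2⟩, fun h => h2 ⟨h.1, ?_, h.2⟩⟩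
      · have e : Z = (X + Y + Z) - X - Y := by ring
        rw [e]
        exact R.sub_mem (R.sub_mem h1 h.1) h.2
      · have e : X = (X + Y + Z) - Y - Z := by ring
        rw [e]
        exact R.sub_mem (R.sub_mem h1 h.1) h.2
      · have e : Y = (X + Y + Z) - X - Z := by ring
        rw [e]
        exact R.sub_mem (R.sub_mem h1 h.1) h.2
    have hPσ : (P.comap σ).IsPrime := hP.comap σ
    have m1 := hmem X a1
    have m2 := hmem Y a2
    have m3 := hmem Z a3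
    clear hmem
    generalize P.comap σ = R at hP3σ hPσ m1 m2 m3
    obtain ⟨k1, k2, k3⟩ := key P hP hP3
    obtain ⟨l1, l2, l3⟩ := key R hPσ hP3σ
    rcases m1 with m1 | m1
    · rcases m2 with m2 | m2
      · exact k1 ⟨m1, m2⟩
      · rcases m3 with m3 | m3
        · exact k3 ⟨m1, m3⟩
        · exact l2 ⟨m2, m3⟩
    · rcases m2 with m2 | m2
      · rcases m3 with m3 | m3
        · exact k2 ⟨m2, m3⟩
        · exact l3 ⟨m1, m3⟩
      · exact l1 ⟨m1, m2⟩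
  have htt := t3 σ hN hT hs
  obtain ⟨m, hm⟩ := (datC σ hK hN hT s).dd
  have hm' := congrArg (fun w : ℤ => (w : ZMod 3)) hm
  push_cast at hm'
  rw [htt] at hm'
  rcases cls0 (m : ZMod 3) (NumberField.discr K : ZMod 3) hd3 with hq | ⟨hq, hd1⟩
  · rw [hq] at hm'
    rcases cls1 _ _ _ hm' with q | q | q | q | q
    · exact hne q
    · exact cIV q.1 q.2.1 q.2.2
    · exact cI X Y Z hs q.1 q.2.1 q.2.2
    · exact cI Y Z X hs.rot q.1 q.2.1 q.2.2
    · exact cI Z X Y hs.rot.rot q.1 q.2.1 q.2.2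
  · rw [hq] at hm'
    rcases cls2 _ _ _ hm' with (q | q | q) | (q | q | q)
    · exact cII X Y Z hs hd1 q.1 q.2.1 q.2.2
    · exact cII Y Z X hs.rot hd1 q.1 q.2.1 q.2.2
    · exact cII Z X Y hs.rot.rot hd1 q.1 q.2.1 q.2.2
    · exact cIII X Y Z hs hd1 q.1 q.2.1 q.2.2
    · exact cIII Y Z X hs.rot hd1 q.1 q.2.1 q.2.2
    · exact cIII Z X Y hs.rot.rot hd1 q.1 q.2.1 q.2.2

end

end Pool.Agent.Q262.MQ
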