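import Pool.Agent.Y546.WQ.Stm3
import Pool.Agent.Y546.WQ.Wie

/-!
# The Stickelberger relations modulo a prime above `r`
-/

set_option autoImplicit false
set_option linter.all false

namespace Pool.Agent.Q262.MQ

open Pool.Agent.Y546.WQ NumberField IsDedekindDomain Polynomial

/-- the value of the polynomial and its reflection in characteristic `r` -/
theorem refl_val {F : Type} [Field F] (r : ℕ) [CharP F r] (f : Polynomial ℤ) (m a b : ℕ)
    (ε : ℤ) (hf : f.natDegree ≤ m)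
    (h : X ^ b * f.map (Int.castRingHom (ZMod r)) =
      Polynomial.C (ε : ZMod r) * (X ^ a * (f.reflect m).map (Int.castRingHom (ZMod r))))
    (y : F) (hy : y ≠ 0) :
    y ^ b * f.eval₂ (Int.castRingHom F) y =
      (ε : F) * (y ^ (a + m) * f.eval₂ (Int.castRingHom F) y⁻¹) := by
  let ι : ZMod r →+* F := ZMod.castHom (dvd_refl r) F
  have h1 : ∀ q : Polynomial ℤ, (q.map (Int.castRingHom (ZMod r))).eval₂ ι y =
      q.eval₂ (Int.castRingHom F) y := by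
    intro q
    rw [Polynomial.eval₂_map]
    congr 1
    exact RingHom.ext_int _ _
  have h3 := congrArg (Polynomial.eval₂ ι y) h
  rw [Polynomial.eval₂_mul, Polynomial.eval₂_mul, Polynomial.eval₂_mul, Polynomial.eval₂_X_pow,
    Polynomial.eval₂_X_pow, Polynomial.eval₂_C, h1, h1, map_intCast] at h3
  rw [h3]
  letI : Invertible y⁻¹ := invertibleOfNonzero (inv_ne_zero hy)
  have h4 := Polynomial.eval₂_reflect_mul_pow (Int.castRingHom F) y⁻¹ m f hf
  rw [invOf_eq_inv, inv_inv] at h4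
  rw [← h4, pow_add, inv_pow]
  have h5 : y ^ m ≠ 0 := pow_ne_zero _ hy
  field_simp

/-- the relation in a quotient field of characteristic `r` -/
theorem rel_F {p : ℕ} [Fact p.Prime] (r : ℕ) (hr : r.Prime) (a' : ℕ) {E : Type} [Field E]
    [NumberField E] (c : Cyc p E)
    (f : Polynomial ℤ) (n : ℤ) (hn : ¬ (r : ℤ) ∣ n)
    (hP : ∀ P : Ideal (𝓞 E), P.IsPrime → ((r : ℕ) : 𝓞 E) ∈ P →
      ∀ w : 𝓞 E, (w : E) = aeval c.z f → w ∉ P)
    (g : E) (i : ℕ) (hrel : tha c a' (aeval c.z f / (n : E)) = c.z ^ i * g ^ p)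
    (zO : 𝓞 E) (hz : (zO : E) = c.z) {F : Type} [Field F] [CharP F r] (ψ : 𝓞 E →+* F) :
    ∃ d : F, d ≠ 0 ∧ ∏ t ∈ hf p a', f.eval₂ (Int.castRingHom F)
      (ψ zO ^ ((t⁻¹ : (ZMod p)ˣ) : ZMod p).val) =
        ((n : ℤ) : F) ^ (hf p a').card * (ψ zO ^ i * d ^ p) := by
  have hpp : p.Prime := Fact.out
  have hp0 : p ≠ 0 := hpp.ne_zero
  have hrF : ((r : ℕ) : F) = 0 := CharP.cast_eq_zero F r
  have hzp : zO ^ p = 1 := by
    apply RingOfIntegers.coe_injective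
    show (algebraMap (𝓞 E) E) _ = (algebraMap (𝓞 E) E) _
    have e2 : (algebraMap (𝓞 E) E) zO = c.z := hz
    rw [map_pow, map_one, e2, c.prim.pow_eq_one]
  have hw0 : ψ zO ≠ 0 := by
    intro h
    have h1 := congrArg ψ hzp
    rw [map_pow, h, zero_pow hp0, map_one] at h1
    exact zero_ne_one h1
  have h2k : ((r : ℕ) : 𝓞 E) ∈ RingHom.ker ψ := by
    rw [RingHom.mem_ker, map_natCast]
    exact hrF
  have hkb : RingHom.ker ψ ≠ ⊥ := by
    intro h
    rw [h, Ideal.mem_bot] at h2k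
    have : r = 0 := by exact_mod_cast h2k
    exact hr.ne_zero this
  let v : HeightOneSpectrum (𝓞 E) := ⟨RingHom.ker ψ, RingHom.ker_isPrime ψ, hkb⟩
  have hab : ∃ al be : 𝓞 E, ¬ (ψ al = 0 ∧ ψ be = 0) ∧ g * (be : E) = (al : E) := by
    obtain ⟨x, d, h | h⟩ := v.exists_primeCompl_mul_eq_or_mul_eq g
    · refine ⟨x, d, fun hh => ?_, h⟩
      exact d.2 hh.2
    · refine ⟨d, x, fun hh => ?_, h⟩
      exact d.2 hh.1
  obtain ⟨al, be, h0, hgab⟩ := hab
  have hn0' : n ≠ 0 := by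
    rintro rfl
    exact hn (dvd_zero _)
  have hn0 : (n : E) ≠ 0 := by exact_mod_cast hn0'
  have hae : ∀ k : ℕ, algebraMap (𝓞 E) E (aeval (zO ^ k) f) = aeval (c.z ^ k) f := by
    intro k
    rw [← Polynomial.aeval_algebraMap_apply, map_pow]
    rw [show algebraMap (𝓞 E) E zO = c.z from hz]
  have hsig : ∀ t : (ZMod p)ˣ, c.σ t (aeval c.z f) = aeval (c.z ^ (t : ZMod p).val) f := by
    intro t
    have e1 := Polynomial.map_aeval_eq_aeval_map (φ := Int.castRingHom ℤ)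
      (ψ := ((c.σ t : E ≃ₐ[ℚ] E) : E →+* E)) (RingHom.ext_int _ _) f c.z
    rw [show (Int.castRingHom ℤ) = RingHom.id ℤ from rfl, Polynomial.map_id] at e1
    rw [← c.σ_z t]
    exact e1
  have hR : (∏ t ∈ hf p a', aeval (zO ^ ((t⁻¹ : (ZMod p)ˣ) : ZMod p).val) f) * be ^ p =
      (n : 𝓞 E) ^ (hf p a').card * (zO ^ i * al ^ p) := by
    apply RingOfIntegers.coe_injective
    have e1 : tha c a' (aeval c.z f / (n : E)) =
        (∏ t ∈ hf p a', aeval (c.z ^ ((t⁻¹ : (ZMod p)ˣ) : ZMod p).val) f) /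
          (n : E) ^ (hf p a').card := by
      unfold tha
      rw [← Finset.prod_const, ← Finset.prod_div_distrib]
      refine Finset.prod_congr rfl fun t _ => ?_
      rw [map_div₀, map_intCast, hsig]
    rw [e1, div_eq_iff (pow_ne_zero _ hn0)] at hrel
    show (algebraMap (𝓞 E) E) _ = (algebraMap (𝓞 E) E) _
    have e2 : (algebraMap (𝓞 E) E) zO = c.z := hz
    simp only [map_mul, map_pow, map_prod, map_intCast, e2, hae]
    rw [hrel]
    have e3 : (algebraMap (𝓞 E) E) al = g * (algebraMap (𝓞 E) E) be := hgab.symm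
    rw [e3, mul_pow]
    ring
  have hRF := congrArg ψ hR
  have hnF : ((n : ℤ) : F) ≠ 0 := by
    intro h
    exact hn ((CharP.intCast_eq_zero_iff F r n).1 h)
  have hψ : ∀ x : 𝓞 E, ψ (aeval x f) = f.eval₂ (Int.castRingHom F) (ψ x) := by
    intro x
    rw [Polynomial.aeval_def, Polynomial.hom_eval₂]
    congr 1
    exact RingHom.ext_int _ _
  simp only [map_mul, map_pow, map_prod, map_intCast, hψ] at hRF
  -- the product is not zero
  have hne : ∏ t ∈ hf p a', f.eval₂ (Int.castRingHom F)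
      (ψ zO ^ ((t⁻¹ : (ZMod p)ˣ) : ZMod p).val) ≠ 0 := by
    refine Finset.prod_ne_zero_iff.2 fun t _ hh => ?_
    have e1 : rs c t⁻¹ (aeval zO f) = aeval (zO ^ ((t⁻¹ : (ZMod p)ˣ) : ZMod p).val) f := by
      apply RingOfIntegers.coe_injective
      have e2 : ((rs c t⁻¹ (aeval zO f) : 𝓞 E) : E) = c.σ t⁻¹ ((aeval zO f : 𝓞 E) : E) := rfl
      refine e2.trans ?_
      have e3 := hae 1
      rw [pow_one, pow_one] at e3
      have e4 : ((aeval zO f : 𝓞 E) : E) = aeval c.z f := e3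
      rw [e4, hsig]
      exact (hae _).symm
    have e5 : ψ (rs c t⁻¹ (aeval zO f)) = 0 := by
      rw [e1, hψ, map_pow]
      exact hh
    refine hP (RingHom.ker (ψ.comp (rs c t⁻¹ : 𝓞 E →+* 𝓞 E))) (RingHom.ker_isPrime _) ?_
      (aeval zO f) ?_ ?_
    · rw [RingHom.mem_ker, map_natCast]
      exact hrF
    · have e3 := hae 1
      rw [pow_one, pow_one] at e3
      exact e3
    · rw [RingHom.mem_ker]
      exact e5
  have hbe : ψ be ≠ 0 := by
    intro h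
    rw [h, zero_pow hp0, mul_zero] at hRF
    have h1 : ψ zO ^ i * ψ al ^ p = 0 := (mul_eq_zero.1 hRF.symm).resolve_left
      (pow_ne_zero _ hnF)
    have h2 : ψ al ^ p = 0 := (mul_eq_zero.1 h1).resolve_left (pow_ne_zero _ hw0)
    exact h0 ⟨pow_eq_zero_iff hp0 |>.1 h2, h⟩
  have hal : ψ al ≠ 0 := by
    intro h
    rw [h, zero_pow hp0, mul_zero, mul_zero] at hRF
    have h1 : ψ be ^ p = 0 := (mul_eq_zero.1 hRF).resolve_left hne
    exact h0 ⟨h, pow_eq_zero_iff hp0 |>.1 h1⟩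
  refine ⟨ψ al / ψ be, div_ne_zero hal hbe, ?_⟩
  rw [div_pow, ← mul_div_assoc, ← mul_div_assoc, eq_div_iff (pow_ne_zero _ hbe)]
  exact hRF

theorem exists_M (C : Type) [Field C] [NumberField C] (r : ℕ) (hr : r.Prime) :
    ∃ M : Ideal (𝓞 C), M.IsMaximal ∧ ((r : ℕ) : 𝓞 C) ∈ M := by
  have h1 : (Ideal.span {(r : ℤ)}).IsMaximal :=
    PrincipalIdealRing.isMaximal_of_irreducible (Nat.prime_iff_prime_int.1 hr).irreducible
  obtain ⟨M, hM, hMl⟩ := Ideal.exists_maximal_ideal_liesOver_of_isIntegral (S := 𝓞 C)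
    (Ideal.span {(r : ℤ)})
  refine ⟨M, hM, ?_⟩
  have h2 : (r : ℤ) ∈ M.under ℤ := by
    rw [← hMl.over]
    exact Ideal.mem_span_singleton_self _
  rw [Ideal.under_def, Ideal.mem_comap] at h2
  simpa using h2

theorem sumval (p : ℕ) [Fact p.Prime] (a' : ℕ) :
    ((∑ t ∈ hf p a', ((t⁻¹ : (ZMod p)ˣ) : ZMod p).val : ℕ) : ZMod p) = hsa p a' 1 := by
  unfold hsa
  rw [Nat.cast_sum]
  refine Finset.sum_congr rfl fun t _ => ?_
  rw [pow_one, ZMod.natCast_val, ZMod.cast_id', id]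

theorem mainRG {p : ℕ} [Fact p.Prime] (hp2 : p ≠ 2) (r : ℕ) (hr : r.Prime) (hrp : r ≠ p)
    (a' : ℕ) {E : Type} [Field E] [NumberField E] (c : Cyc p E)
    (f : Polynomial ℤ) (n : ℤ) (hn : ¬ (r : ℤ) ∣ n) (m a b : ℕ) (ε : ℤ) (hε : ε ^ 2 = 1)
    (hf' : f.natDegree ≤ m)
    (hab : X ^ b * f.map (Int.castRingHom (ZMod r)) =
      Polynomial.C (ε : ZMod r) * (X ^ a * (f.reflect m).map (Int.castRingHom (ZMod r))))
    (hP : ∀ P : Ideal (𝓞 E), P.IsPrime → ((r : ℕ) : 𝓞 E) ∈ P →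
      ∀ w : 𝓞 E, (w : E) = aeval c.z f → w ∉ P)
    (g : E) (i : ℕ) (hrel : tha c a' (aeval c.z f / (n : E)) = c.z ^ i * g ^ p) :
    2 * (i : ZMod p) = ((m : ZMod p) + a - b) * hsa p a' 1 ∨ p ^ 2 ∣ r ^ (p - 1) - 1 := by
  have hpp : p.Prime := Fact.out
  have hp1 := hpp.one_lt
  have hfr : Fact r.Prime := ⟨hr⟩
  obtain ⟨M, hM, hrM⟩ := exists_M E r hr
  let _ : Field (𝓞 E ⧸ M) := Ideal.Quotient.field M
  let φ : 𝓞 E →+* (𝓞 E ⧸ M) := Ideal.Quotient.mk M
  haveI hchar : CharP (𝓞 E ⧸ M) r := charP_quot M hM.isPrime r hr hrM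
  -- the root of unity as an integer
  let zO : 𝓞 E := ⟨c.z, c.prim.isIntegral hpp.pos⟩
  have hzO : (zO : E) = c.z := rfl
  have hzprim : IsPrimitiveRoot zO p :=
    IsPrimitiveRoot.of_map_of_injective (f := algebraMap (𝓞 E) E) c.prim
      (RingOfIntegers.coe_injective)
  set w : 𝓞 E ⧸ M := φ zO with hwdef
  have hw : w ^ p = 1 := by rw [hwdef, ← map_pow, hzprim.pow_eq_one, map_one]
  have hw0 : w ≠ 0 := by
    intro h
    rw [h, zero_pow hpp.ne_zero] at hw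
    exact zero_ne_one hw
  have hpF : ((p : ℕ) : 𝓞 E ⧸ M) ≠ 0 := by
    intro h
    have h1 := (CharP.cast_eq_zero_iff (𝓞 E ⧸ M) r p).1 h
    exact hrp ((Nat.prime_dvd_prime_iff_eq hr hpp).1 h1)
  have hw1 : w ≠ 1 := by
    intro h
    have h1 := hzprim.geom_sum_eq_zero hpp.one_lt
    have h3 := congrArg φ h1
    rw [map_sum, map_zero] at h3
    have h4 : ∀ j ∈ Finset.range p, φ (zO ^ j) = 1 := by
      intro j _
      rw [map_pow, ← hwdef, h, one_pow]
    rw [Finset.sum_congr rfl h4, Finset.sum_const, Finset.card_range, nsmul_one] at h3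
    exact hpF h3
  have hwprim : IsPrimitiveRoot w p := by
    have := orderOf_eq_prime hw hw1
    rw [← this]
    exact IsPrimitiveRoot.orderOf w
  -- the Frobenius
  have hcop : r ^ (p - 1) % p = 1 := by
    have e2 : ((r ^ (p - 1) : ℕ) : ZMod p) = ((1 : ℕ) : ZMod p) := by
      push_cast
      refine ZMod.pow_card_sub_one_eq_one ?_
      rw [Ne, ZMod.natCast_eq_zero_iff]
      intro hd
      exact hrp ((Nat.prime_dvd_prime_iff_eq hpp hr).1 hd).symm
    rw [ZMod.natCast_eq_natCast_iff] at e2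
    have e3 : r ^ (p - 1) % p = 1 % p := e2
    rw [e3, Nat.mod_eq_of_lt hpp.one_lt]
  have hF : ∀ x : 𝓞 E ⧸ M, x ^ r ^ (p - 1) = x := by
    intro x
    obtain ⟨y, rfl⟩ := Ideal.Quotient.mk_surjective x
    obtain ⟨f, hf⟩ := c.gen (y : E) y.2
    have h1 : y = Polynomial.aeval zO f := by
      apply RingOfIntegers.coe_injective
      have := Polynomial.aeval_algebraMap_apply E zO f
      exact hf.trans this
    have h3 : ∀ ψ : 𝓞 E →+* (𝓞 E ⧸ M), ψ (Polynomial.aeval zO f) =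
        Polynomial.eval₂ (Int.castRingHom _) (ψ zO) f := by
      intro ψ
      rw [Polynomial.aeval_def, Polynomial.hom_eval₂]
      congr 1
      exact RingHom.ext_int _ _
    have h4 := h3 φ
    have h5 := h3 ((iterateFrobenius (𝓞 E ⧸ M) r (p - 1)).comp φ)
    rw [RingHom.comp_apply, RingHom.comp_apply, iterateFrobenius_def, iterateFrobenius_def] at h5
    have h6 : (φ zO) ^ r ^ (p - 1) = φ zO := by
      rw [pow_eq_pow_mod _ hw, hcop, pow_one]
    rw [h6, ← h4] at h5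
    have h7 : Ideal.Quotient.mk M y = φ (Polynomial.aeval zO f) := by rw [← h1]
    rw [h7]
    exact h5
  -- the two relations
  obtain ⟨d1, hd1, hr1⟩ := rel_F r hr a' c f n hn hP g i hrel zO hzO φ
  obtain ⟨d2, hd2, hr2⟩ := rel_F r hr a' c f n hn hP g i hrel zO hzO
    (φ.comp (rs c (-1) : 𝓞 E →+* 𝓞 E))
  have hw' : (φ.comp (rs c (-1) : 𝓞 E →+* 𝓞 E)) zO = w⁻¹ := by
    have e1 : rs c (-1) zO = zO ^ ((-1 : (ZMod p)ˣ) : ZMod p).val := by
      apply RingOfIntegers.coe_injective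
      have e2 : ((rs c (-1) zO : 𝓞 E) : E) = c.σ (-1) ((zO : 𝓞 E) : E) := rfl
      refine e2.trans ?_
      rw [hzO, c.σ_z]
      rfl
    have e3 : (φ.comp (rs c (-1) : 𝓞 E →+* 𝓞 E)) zO = φ (rs c (-1) zO) := rfl
    rw [e3, e1, map_pow, Units.val_neg, Units.val_one]
    apply eq_inv_of_mul_eq_one_left
    rw [← hwdef, ← pow_succ]
    have e4 : (-1 : ZMod p).val + 1 = p := by
      rw [ZMod.neg_val, if_neg one_ne_zero]
      haveI : Fact (1 < p) := ⟨hp1⟩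
      rw [ZMod.val_one]
      omega
    rw [e4, hw]
  rw [hw'] at hr2
  rw [← hwdef] at hr1
  obtain ⟨S, hS⟩ : ∃ S : ℕ, S = ∑ t ∈ hf p a', ((t⁻¹ : (ZMod p)ˣ) : ZMod p).val := ⟨_, rfl⟩
  have hSc : (S : ZMod p) = hsa p a' 1 := by rw [hS, sumval]
  have hnF : ((n : ℤ) : 𝓞 E ⧸ M) ≠ 0 := by
    intro h
    exact hn ((CharP.intCast_eq_zero_iff (𝓞 E ⧸ M) r n).1 h)
  have hprod : (w ^ S) ^ b * (w ^ i * d1 ^ p) =
      (ε : 𝓞 E ⧸ M) ^ (hf p a').card * ((w ^ S) ^ (a + m) * ((w⁻¹) ^ i * d2 ^ p)) := by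
    apply mul_left_cancel₀ (pow_ne_zero (hf p a').card hnF)
    have e1 : ((n : ℤ) : 𝓞 E ⧸ M) ^ (hf p a').card * ((w ^ S) ^ b * (w ^ i * d1 ^ p)) =
        (w ^ S) ^ b * (((n : ℤ) : 𝓞 E ⧸ M) ^ (hf p a').card * (w ^ i * d1 ^ p)) := by ring
    have e2 : ((n : ℤ) : 𝓞 E ⧸ M) ^ (hf p a').card *
        ((ε : 𝓞 E ⧸ M) ^ (hf p a').card * ((w ^ S) ^ (a + m) * ((w⁻¹) ^ i * d2 ^ p))) =
        (ε : 𝓞 E ⧸ M) ^ (hf p a').card * ((w ^ S) ^ (a + m) *
          (((n : ℤ) : 𝓞 E ⧸ M) ^ (hf p a').card * ((w⁻¹) ^ i * d2 ^ p))) := by ring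
    rw [e1, e2, ← hr1, ← hr2, hS, ← Finset.prod_pow_eq_pow_sum, ← Finset.prod_pow,
      ← Finset.prod_pow, ← Finset.prod_mul_distrib, ← Finset.prod_mul_distrib,
      ← Finset.prod_const, ← Finset.prod_mul_distrib]
    refine Finset.prod_congr rfl fun t _ => ?_
    have := refl_val r f m a b ε hf' hab (w ^ ((t⁻¹ : (ZMod p)ˣ) : ZMod p).val)
      (pow_ne_zero _ hw0)
    rw [inv_pow]
    exact this
  -- the sign is a `p`-th power
  have hεF : ((ε : 𝓞 E ⧸ M) ^ (hf p a').card) ^ p = (ε : 𝓞 E ⧸ M) ^ (hf p a').card := by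
    have e1 : (ε : 𝓞 E ⧸ M) ^ 2 = 1 := by
      have := congrArg (fun w : ℤ => (w : 𝓞 E ⧸ M)) hε
      push_cast at this
      exact this
    have e2 : ((ε : 𝓞 E ⧸ M) ^ (hf p a').card) ^ 2 = 1 := by
      rw [← pow_mul, mul_comm, pow_mul, e1, one_pow]
    have key : ∀ (u : 𝓞 E ⧸ M) (k : ℕ), u ^ 2 = 1 → Odd k → u ^ k = u := by
      intro u k hu hk
      obtain ⟨q, rfl⟩ := hk
      rw [pow_add, pow_mul, hu, one_pow, one_mul, pow_one]
    exact key _ p e2 (hpp.odd_of_ne_two hp2)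
  have hε0 : (ε : 𝓞 E ⧸ M) ^ (hf p a').card ≠ 0 := by
    intro h
    have e1 : (ε : 𝓞 E ⧸ M) ^ 2 = 1 := by
      have := congrArg (fun w : ℤ => (w : 𝓞 E ⧸ M)) hε
      push_cast at this
      exact this
    have e2 : ((ε : 𝓞 E ⧸ M) ^ (hf p a').card) ^ 2 = 1 := by
      rw [← pow_mul, mul_comm, pow_mul, e1, one_pow]
    rw [h, zero_pow two_ne_zero] at e2
    exact zero_ne_one e2
  obtain ⟨v, hv⟩ : ∃ v : 𝓞 E ⧸ M, v = (ε : 𝓞 E ⧸ M) ^ (hf p a').card * d2 / d1 := ⟨_, rfl⟩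
  have hv0 : v ≠ 0 := by
    rw [hv]
    exact div_ne_zero (mul_ne_zero hε0 hd2) hd1
  have hkey : w ^ (S * b + 2 * i) = w ^ (S * (a + m)) * v ^ p := by
    rw [hv, div_pow, mul_pow, hεF, pow_add, pow_mul, pow_mul w S, two_mul, pow_add]
    have e2 : w ^ i ≠ 0 := pow_ne_zero _ hw0
    have e3 : d1 ^ p ≠ 0 := pow_ne_zero _ hd1
    rw [inv_pow] at hprod
    field_simp at hprod ⊢
    linear_combination hprod
  by_cases hcase : v ^ p = 1
  · left
    rw [hcase, mul_one] at hkey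
    have e0 : w ^ (((S * b + 2 * i : ℕ) : ℤ) - ((S * (a + m) : ℕ) : ℤ)) = 1 := by
      rw [zpow_sub₀ hw0, zpow_natCast, zpow_natCast, hkey, div_self (pow_ne_zero _ hw0)]
    have e1 := (hwprim.zpow_eq_one_iff_dvd _).1 e0
    have e2 := (ZMod.intCast_zmod_eq_zero_iff_dvd _ p).2 e1
    push_cast at e2
    rw [hSc] at e2
    linear_combination e2
  · right
    have e1 : v ^ p ^ 2 = 1 := by
      have e2 : (w ^ (S * (a + m))) ^ p * (v ^ p) ^ p = 1 := by
        rw [← mul_pow, ← hkey, ← pow_mul, mul_comm, pow_mul, hw, one_pow]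
      rw [← pow_mul w, mul_comm (S * (a + m)) p, pow_mul w p, hw, one_pow, one_mul] at e2
      rw [pow_two, pow_mul]
      exact e2
    have e3 : orderOf v = p ^ (1 + 1) := orderOf_eq_prime_pow (by rwa [pow_one]) e1
    have e4 : v ^ (r ^ (p - 1) - 1) = 1 := by
      have h1 := hF v
      have h2 : v ^ (r ^ (p - 1) - 1) * v = v := by
        rw [← pow_succ, Nat.sub_add_cancel (Nat.one_le_pow _ _ hr.pos)]
        exact h1
      exact mul_right_cancel₀ hv0 (by rw [h2, one_mul])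
    have e5 := orderOf_dvd_of_pow_eq_one e4
    rw [e3] at e5
    exact e5

end Pool.Agent.Q262.MQ
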