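import Pool.Agent.Y546.WQ.FinQ
import Pool.Agent.Q262.MQ.RG
import Pool.Agent.Q262.MQ.Der

/-!
# The relation of a quadratic norm polynomial from a prime `r`
-/

set_option autoImplicit false
set_option linter.all false

namespace Pool.Agent.Q262.MQ

open Pool.Agent.Y546.WQ NumberField IsDedekindDomain Polynomial

/-- the part prime to `r` -/
theorem exists_part (r : ℕ) (hr : r.Prime) (u : ℤ) (hu : u ≠ 0) :
    ∃ (s : ℕ) (n : ℤ), ¬ (r : ℤ) ∣ n ∧ u = (r : ℤ) ^ s * n := by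
  have h1 : FiniteMultiplicity (r : ℤ) u := by
    apply Int.finiteMultiplicity_iff.2
    refine ⟨?_, hu⟩
    rw [Int.natAbs_natCast]
    exact hr.one_lt.ne'
  obtain ⟨n, hn, h2⟩ := h1.exists_eq_pow_mul_and_not_dvd
  exact ⟨_, n, h2, hn⟩

theorem wieR {p : ℕ} [Fact p.Prime] (hp2 : p ≠ 2) (r : ℕ) (hr : r.Prime) (hrp : r ≠ p)
    (hW : ¬ p ^ 2 ∣ r ^ (p - 1) - 1) {C : Type} [Field C] [NumberField C] (c : Cyc p C)
    (a b e : ℤ) (hpu : ¬ (p : ℤ) ∣ a + b + e) (α β : ℕ) (ε : ℤ) (hε : ε ^ 2 = 1)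
    (f : Polynomial ℤ) (hfd : f = Polynomial.C a + Polynomial.C b * X + Polynomial.C e * X ^ 2)
    (hab : X ^ β * f.map (Int.castRingHom (ZMod r)) =
      Polynomial.C (ε : ZMod r) * (X ^ α * (f.reflect 2).map (Int.castRingHom (ZMod r))))
    (hP : ∀ P : Ideal (𝓞 C), P.IsPrime → ((r : ℕ) : 𝓞 C) ∈ P → ∀ w : 𝓞 C, w ^ p = 1 →
      1 - w ∉ P → (a : 𝓞 C) + b * w + e * w ^ 2 ∉ P)
    (h0 : (a : C) + b * c.z + e * c.z ^ 2 ≠ 0)
    (hv : ∀ P : HeightOneSpectrum (𝓞 C), ∃ m : ℤ,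
      P.valuation C ((a : C) + b * c.z + e * c.z ^ 2) =
        P.valuation C ((a + b + e : ℤ) : C) * WithZero.exp ((p : ℤ) * m)) :
    ((2 : ZMod p) + α - β) * (a + b + e : ℤ) = 2 * (b + 2 * e : ℤ) := by
  have hpp : p.Prime := Fact.out
  have haev : aeval c.z f = (a : C) + b * c.z + e * c.z ^ 2 := by
    rw [hfd]
    simp
  have hev1 : f.eval 1 = a + b + e := by
    rw [hfd]
    simp
  have hdeg : f.natDegree ≤ 2 := by
    rw [hfd]
    compute_degree
  have hu0 : a + b + e ≠ 0 := fun h => hpu (h ▸ dvd_zero _)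
  obtain ⟨s, n, hn, hrn⟩ := exists_part r hr (a + b + e) hu0
  have hpn : ¬ (p : ℤ) ∣ n := fun h => hpu (hrn ▸ dvd_mul_of_dvd_right h _)
  obtain ⟨w, hwz, hw⟩ := exists_zint c
  have hΛ : (((a : 𝓞 C) + b * w + e * w ^ 2 : 𝓞 C) : C) = (a : C) + b * c.z + e * c.z ^ 2 := by
    have hwz' : algebraMap (𝓞 C) C w = c.z := hwz
    simp only [map_add, map_mul, map_pow, map_intCast, hwz']
  have hw1 : ∀ P : Ideal (𝓞 C), P.IsPrime → ((r : ℕ) : 𝓞 C) ∈ P → 1 - w ∉ P := by
    intro P hPp hrP h6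
    have h7 := p_mem_of_one_sub_mem w hw P h6
    have h8 := int_notMem P hPp r hr hrP (p : ℤ) (by
      intro h
      have h9 : r ∣ p := by exact_mod_cast h
      exact hrp ((Nat.prime_dvd_prime_iff_eq hr hpp).1 h9))
    exact h8 (by exact_mod_cast h7)
  have hvn : ∀ P : HeightOneSpectrum (𝓞 C), ∃ m : ℤ,
      P.valuation C (aeval c.z f) =
        P.valuation C ((n : ℤ) : C) * WithZero.exp ((p : ℤ) * m) := by
    intro P
    rw [haev]
    by_cases h2 : ((r : ℕ) : 𝓞 C) ∈ P.asIdeal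
    · refine ⟨0, ?_⟩
      have hn1 : P.valuation C ((n : ℤ) : C) = 1 := by
        have := val_one P ((n : ℤ) : 𝓞 C) (int_notMem P.asIdeal P.isPrime r hr h2 n hn)
        simpa using this
      rw [hn1, mul_zero, WithZero.exp_zero, mul_one, ← hΛ]
      apply val_one
      exact hP P.asIdeal P.isPrime h2 w hw.pow_eq_one (hw1 _ P.isPrime h2)
    · obtain ⟨m, hm⟩ := hv P
      refine ⟨m, ?_⟩
      rw [hm, hrn]
      congr 1
      push_cast
      rw [map_mul, map_pow]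
      have h3 : P.valuation C (r : C) = 1 := by
        have h10 : (((r : ℕ) : 𝓞 C) : C) = r := map_natCast (algebraMap (𝓞 C) C) r
        have := val_one P ((r : ℕ) : 𝓞 C) h2
        rwa [h10] at this
      rw [h3, one_pow, one_mul]
  have hp1 : ¬ (p : ℤ) ∣ f.eval 1 := by rw [hev1]; exact hpu
  rw [← haev] at h0
  obtain ⟨a', ha', hap', hs0⟩ := exists_hsa p hp2
  obtain ⟨g, hg, i, hi⟩ := relGA aUNITA hp2 a' ha' hap' c f n hpn hp1 h0 hvn
  obtain ⟨r', hr', hdv⟩ := Y919.WQ.mainLAMA p hp2 a' ha' hap' C c f n hpn hp1 g hg i hi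
  have e2 := mainRG hp2 r hr hrp a' c f n hn 2 α β ε hε hdeg hab (by
    intro P hPp hrP x hx
    have : x = (a : 𝓞 C) + b * w + e * w ^ 2 := by
      apply RingOfIntegers.coe_injective
      refine Eq.trans (show algebraMap (𝓞 C) C x = _ from hx) ?_
      rw [haev]
      exact hΛ.symm
    rw [this]
    exact hP P hPp hrP w hw.pow_eq_one (hw1 P hPp hrP)) g i hi
  have e3 := e2.resolve_right hW
  have hz : ∀ k : ℤ, ¬ (p : ℤ) ∣ k → (k : ZMod p) ≠ 0 := by
    intro k hk h0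
    exact hk ((ZMod.intCast_zmod_eq_zero_iff_dvd k p).1 h0)
  have hmap : f.map (Int.castRingHom (ZMod p)) = Polynomial.C (a : ZMod p) +
      Polynomial.C (b : ZMod p) * X + Polynomial.C (e : ZMod p) * X ^ 2 := by
    rw [hfd]
    simp
  have hval : (f.map (Int.castRingHom (ZMod p))).eval 1 = ((a + b + e : ℤ) : ZMod p) := by
    rw [hmap]
    simp
  have hder : (derivative (f.map (Int.castRingHom (ZMod p)))).eval 1 =
      ((b + 2 * e : ℤ) : ZMod p) := by
    rw [hmap]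
    simp only [derivative_add, derivative_mul, derivative_C, derivative_X, derivative_X_pow,
      eval_add, eval_mul, eval_C, eval_X, eval_pow, eval_one, zero_mul, zero_add]
    push_cast
    ring
  have e4 := der hp2 a' (f.map (Int.castRingHom (ZMod p))) i r' hdv (by
    rw [hval]
    exact hz _ hpu)
  rw [hval, hder] at e4
  push_cast at e3
  apply mul_right_cancel₀ hs0
  linear_combination (2 : ZMod p) * e4 - ((a + b + e : ℤ) : ZMod p) * e3

end Pool.Agent.Q262.MQ
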