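import Pool.Agent.Y546.WQ.QCrit
import Pool.Agent.Q262.MQ.WieR

/-!
# The relations for the pairs of a solution
-/

set_option autoImplicit false
set_option linter.all false

namespace Pool.Agent.Q262.MQ

open Pool.Agent.Y546.WQ NumberField IsDedekindDomain Polynomial

theorem refl_quad (a b e : ℤ) :
    (Polynomial.C a + Polynomial.C b * X + Polynomial.C e * X ^ 2 : Polynomial ℤ).reflect 2 =
      Polynomial.C e + Polynomial.C b * X + Polynomial.C a * X ^ 2 := by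
  have h : (Polynomial.C a + Polynomial.C b * X + Polynomial.C e * X ^ 2 : Polynomial ℤ) =
      Polynomial.C a * X ^ 0 + Polynomial.C b * X ^ 1 + Polynomial.C e * X ^ 2 := by
    rw [pow_zero, mul_one, pow_one]
  rw [h, reflect_add, reflect_add, reflect_C_mul_X_pow, reflect_C_mul_X_pow,
    reflect_C_mul_X_pow, revAt_le (by norm_num), revAt_le (by norm_num), revAt_le (by norm_num)]
  norm_num
  ring

theorem tr_cast {r : ℕ} (D : Type) [CommRing D] [CharP D r] (a b : ℤ)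
    (h : (a : ZMod r) = (b : ZMod r)) : (a : D) = (b : D) := by
  rw [CharP.intCast_eq_intCast D r]
  exact (ZMod.intCast_eq_intCast_iff a b r).1 h

section

variable {K : Type} [Field K] [NumberField K]

theorem swap {p : ℕ} {X Y Z : 𝓞 K} (h : Sol p K X Y Z) : Sol p K X Z Y where
  X0 := h.X0
  Y0 := h.Z0
  Z0 := h.Y0
  eq := by rw [← h.eq]; ring
  cp := fun P hP hp => ⟨(h.cp P hP hp).1, (h.cp P hP hp).2.2, (h.cp P hP hp).2.1⟩

/-- the relation for a pair -/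
theorem relPair {p : ℕ} [Fact p.Prime] (hp2 : p ≠ 2) (r : ℕ) (hr : r.Prime) (hrp : r ≠ p)
    (hW : ¬ p ^ 2 ∣ r ^ (p - 1) - 1)
    (hK : Module.finrank ℚ K = 2) (σ : 𝓞 K →+* 𝓞 K)
    (hN : ∀ a : 𝓞 K, ((Algebra.norm ℤ a : ℤ) : 𝓞 K) = a * σ a)
    (hT : ∀ a : 𝓞 K, ((Algebra.trace ℤ (𝓞 K) a : ℤ) : 𝓞 K) = a + σ a)
    {E : Type} [Field E] [NumberField E] (c : Cyc p E) {X Y Z : 𝓞 K} (s : Sol p K X Y Z)
    (A B t : ℤ) (hA : A = Algebra.norm ℤ X) (hB : B = Algebra.norm ℤ Y)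
    (ht : t = Algebra.trace ℤ (𝓞 K) (X * σ Y)) (α β : ℕ) (ε : ℤ) (hε : ε ^ 2 = 1)
    (hab : (Polynomial.X : Polynomial (ZMod r)) ^ β * (Polynomial.C (A : ZMod r) +
        Polynomial.C (t : ZMod r) * Polynomial.X + Polynomial.C (B : ZMod r) * Polynomial.X ^ 2) =
      Polynomial.C (ε : ZMod r) * (Polynomial.X ^ α * (Polynomial.C (B : ZMod r) +
        Polynomial.C (t : ZMod r) * Polynomial.X + Polynomial.C (A : ZMod r) * Polynomial.X ^ 2)))
    (hP : ∀ (D : Type) [CommRing D] [IsDomain D] [CharP D r] (u : D), u ^ p = 1 → u ≠ 1 →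
      (A : D) + t * u + B * u ^ 2 ≠ 0) :
    ((2 : ZMod p) + α - β) * (Algebra.norm ℤ Z : ℤ) =
      2 * ((Algebra.norm ℤ Z : ℤ) - (Algebra.norm ℤ X : ℤ) + (Algebra.norm ℤ Y : ℤ)) := by
  have hpp : p.Prime := Fact.out
  have h3p : 3 ≤ p := by
    have := hpp.two_le
    omega
  have hσσ := conj_conj σ hT
  have hσ : Function.Injective σ := by
    intro x y hxy
    rw [← hσσ x, ← hσσ y, hxy]
  have hb : (t : 𝓞 K) = X * σ Y + σ X * Y := by
    rw [ht, hT, map_mul, hσσ]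
  obtain ⟨f1, f2, f3⟩ := fld Y261.WQ.main Y686.WQ.main p h3p E c K hK σ hσ X Y Z s.X0
    s.Y0 s.Z0 s.eq (fun P hP hpP => (s.cp P hP hpP).2.2)
    A t B (by rw [hA]; exact hN X) hb (by rw [hB]; exact hN Y)
  have hcp := (datC σ hK hN hT s).cp
  rw [← hA, ← hB, ← ht] at hcp
  have hG0 : ((Algebra.norm ℤ Z : ℤ) : ZMod p) ≠ 0 := by
    intro h0
    exact norm_ncp hpp σ hN (fun P hP hpP => (s.cp P hP hpP).2.2)
      ((ZMod.intCast_zmod_eq_zero_iff_dvd _ p).1 h0)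
  have hpu : ¬ (p : ℤ) ∣ A + t + B := by
    intro h
    apply hG0
    have h' := (ZMod.intCast_zmod_eq_zero_iff_dvd _ p).2 h
    push_cast at h'
    rw [← hcp]
    linear_combination h'
  have key := wieR hp2 r hr hrp hW c A t B hpu α β ε hε _ rfl (by
      rw [refl_quad]
      simpa using hab) (by
      intro P hPp hrP w hw hw1 hmem
      haveI := hPp
      haveI : CharP (𝓞 E ⧸ P) r := charP_quot P hPp r hr hrP
      refine hP (𝓞 E ⧸ P) (Ideal.Quotient.mk P w) ?_ ?_ ?_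
      · rw [← map_pow, hw, map_one]
      · intro h
        apply hw1
        rw [← Ideal.Quotient.eq_zero_iff_mem, map_sub, map_one, h, sub_self]
      · have := Ideal.Quotient.eq_zero_iff_mem.2 hmem
        simpa using this) f1 f3
  push_cast at key
  rw [← hcp, ← hA, ← hB]
  linear_combination key

/-- the discriminant of a pair -/
theorem discPair {p : ℕ} [Fact p.Prime] (hK : Module.finrank ℚ K = 2) (σ : 𝓞 K →+* 𝓞 K)
    (hN : ∀ a : 𝓞 K, ((Algebra.norm ℤ a : ℤ) : 𝓞 K) = a * σ a)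
    (hT : ∀ a : 𝓞 K, ((Algebra.trace ℤ (𝓞 K) a : ℤ) : 𝓞 K) = a + σ a)
    {X Y Z : 𝓞 K} (s : Sol p K X Y Z) :
    ∃ m : ZMod p, (((Algebra.norm ℤ Z : ℤ) : ZMod p) - (Algebra.norm ℤ X : ℤ) -
      (Algebra.norm ℤ Y : ℤ)) ^ 2 - 4 * ((Algebra.norm ℤ X : ℤ) * (Algebra.norm ℤ Y : ℤ)) =
        m ^ 2 * (NumberField.discr K : ℤ) := by
  have D := datC σ hK hN hT s
  obtain ⟨m, hm⟩ := D.dd
  refine ⟨m, ?_⟩
  have hm' := congrArg (fun w : ℤ => (w : ZMod p)) hm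
  push_cast at hm'
  have hcp := D.cp
  have ht : ((Algebra.trace ℤ (𝓞 K) (X * σ Y) : ℤ) : ZMod p) =
      (Algebra.norm ℤ Z : ℤ) - (Algebra.norm ℤ X : ℤ) - (Algebra.norm ℤ Y : ℤ) := by
    rw [← hcp]; ring
  rw [← ht]
  exact hm'

/-- a multiple of the discriminant is a square -/
theorem sqN {p : ℕ} [Fact p.Prime] (N A q d : ZMod p) (hN : N ≠ 0) (hA : A ≠ 0)
    (h : q ^ 2 * d = -(N * A ^ 2)) : ∃ s : ZMod p, s ≠ 0 ∧ s ^ 2 = -N * d := by
  have hq : q ≠ 0 := by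
    intro h0
    rw [h0] at h
    exact mul_ne_zero hN (pow_ne_zero 2 hA) (by linear_combination h)
  refine ⟨N * A / q, div_ne_zero (mul_ne_zero hN hA) hq, ?_⟩
  rw [div_pow, div_eq_iff (pow_ne_zero 2 hq)]
  linear_combination (N : ZMod p) * h

/-- one member divisible by all primes above `r` -/
theorem noDiv {p : ℕ} [Fact p.Prime] (hp2 : p ≠ 2) (r : ℕ) (hr : r.Prime) (hrp : r ≠ p)
    (hW : ¬ p ^ 2 ∣ r ^ (p - 1) - 1)
    (hK : Module.finrank ℚ K = 2) (σ : 𝓞 K →+* 𝓞 K)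
    (hN : ∀ a : 𝓞 K, ((Algebra.norm ℤ a : ℤ) : 𝓞 K) = a * σ a)
    (hT : ∀ a : 𝓞 K, ((Algebra.trace ℤ (𝓞 K) a : ℤ) : 𝓞 K) = a + σ a)
    {E : Type} [Field E] [NumberField E] (c : Cyc p E) {X Y Z : 𝓞 K} (s : Sol p K X Y Z)
    (hX : ∀ P : Ideal (𝓞 K), P.IsPrime → ((r : ℕ) : 𝓞 K) ∈ P → X ∈ P ∧ Y ∉ P ∧ Z ∉ P) :
    False := by
  have hpp : p.Prime := Fact.out
  have hσσ := conj_conj σ hT
  have h3p : 3 ≤ p := by
    have := hpp.two_le
    omega
  obtain ⟨P0, hP0, hrP0⟩ := exists_above (K := K) r hr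
  have hrP0' : ((r : ℕ) : 𝓞 K) ∈ P0.comap σ := by
    rw [Ideal.mem_comap, map_natCast]
    exact hrP0
  have hP0' : (P0.comap σ).IsPrime := hP0.comap σ
  have hdvd : ∀ n : ℤ, (n : 𝓞 K) ∈ P0 → (n : ZMod r) = 0 := by
    intro n hn
    rw [ZMod.intCast_zmod_eq_zero_iff_dvd]
    by_contra hcon
    exact int_notMem P0 hP0 r hr hrP0 n hcon hn
  have hnd : ∀ n : ℤ, (n : 𝓞 K) ∉ P0 → (n : ZMod r) ≠ 0 := by
    intro n hn h0
    rw [ZMod.intCast_zmod_eq_zero_iff_dvd] at h0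
    obtain ⟨d, rfl⟩ := h0
    apply hn
    rw [Int.cast_mul, Int.cast_natCast]
    exact P0.mul_mem_right _ hrP0
  have hXP := hX P0 hP0 hrP0
  have hXP' := hX _ hP0' hrP0'
  simp only [Ideal.mem_comap] at hXP'
  have hA0 : ((Algebra.norm ℤ X : ℤ) : ZMod r) = 0 := by
    apply hdvd
    rw [hN]
    exact P0.mul_mem_right _ hXP.1
  have hnz : ∀ W : 𝓞 K, W ∉ P0 → σ W ∉ P0 → ((Algebra.norm ℤ W : ℤ) : ZMod r) ≠ 0 := by
    intro W h1 h2
    apply hnd
    rw [hN]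
    intro h3
    rcases hP0.mem_or_mem h3 with h | h
    · exact h1 h
    · exact h2 h
  have htr : ∀ W : 𝓞 K, ((Algebra.trace ℤ (𝓞 K) (X * σ W) : ℤ) : ZMod r) = 0 := by
    intro W
    apply hdvd
    rw [hT, map_mul, hσσ]
    exact P0.add_mem (P0.mul_mem_right _ hXP.1) (P0.mul_mem_right _ hXP'.1)
  have hgen : ∀ U V : 𝓞 K, Sol p K X U V → U ∉ P0 → σ U ∉ P0 →
      ((2 : ZMod p) + (2 : ℕ) - (0 : ℕ)) * (Algebra.norm ℤ V : ℤ) =
        2 * ((Algebra.norm ℤ V : ℤ) - (Algebra.norm ℤ X : ℤ) + (Algebra.norm ℤ U : ℤ)) := by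
    intro U V sU h1 h2
    refine relPair hp2 r hr hrp hW hK σ hN hT c sU _ _ _ rfl rfl rfl 2 0 1 (by norm_num) ?_ ?_
    · rw [hA0, htr U]
      simp only [pow_zero, one_mul, map_zero, zero_mul, zero_add, add_zero, Int.cast_one,
        map_one]
      ring
    · intro D _ _ _ u hu hu1 h0
      have e1 : ((Algebra.norm ℤ X : ℤ) : D) = ((0 : ℤ) : D) :=
        tr_cast (r := r) D _ _ (by rw [hA0]; simp)
      have e2 : ((Algebra.trace ℤ (𝓞 K) (X * σ U) : ℤ) : D) = ((0 : ℤ) : D) :=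
        tr_cast (r := r) D _ _ (by rw [htr U]; simp)
      rw [e1, e2, Int.cast_zero, zero_mul, zero_add, zero_add] at h0
      rcases mul_eq_zero.1 h0 with h3 | h3
      · apply hnz U h1 h2
        rw [ZMod.intCast_zmod_eq_zero_iff_dvd]
        exact (CharP.intCast_eq_zero_iff D r _).1 h3
      · have h4 : u = 0 := (pow_eq_zero_iff two_ne_zero).1 h3
        rw [h4, zero_pow hpp.ne_zero] at hu
        exact zero_ne_one hu
  have e1 := hgen Y Z s hXP.2.1 hXP'.2.1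
  have e2 := hgen Z Y (swap s) hXP.2.2 hXP'.2.2
  have n2 : (2 : ZMod p) ≠ 0 := by
    have := natc_ne hpp 2 (fun h => by have := Nat.le_of_dvd (by norm_num) h; omega)
    exact_mod_cast this
  have hX0 : ((Algebra.norm ℤ X : ℤ) : ZMod p) ≠ 0 := (datC σ hK hN hT s).A0
  push_cast at e1 e2
  have e3 : (2 : ZMod p) * (2 * (Algebra.norm ℤ X : ℤ)) = 0 := by
    linear_combination e1 + e2
  exact mul_ne_zero n2 (mul_ne_zero n2 hX0) e3

end

end Pool.Agent.Q262.MQ
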