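import Pool.Agent.Q262.MQ.Rel

/-!
# The prime three
-/

set_option autoImplicit false
set_option linter.all false

namespace Pool.Agent.Q262.MQ

open Pool.Agent.Y546.WQ NumberField IsDedekindDomain Polynomial

theorem cls0 : ∀ m d : ZMod 3, (d = 0 ∨ d = 1) → m ^ 2 * d = 0 ∨ (m ^ 2 * d = 1 ∧ d = 1) := by
  decide

theorem cls1 : ∀ A B G : ZMod 3, (G - A - B) ^ 2 - 4 * (A * B) = 0 →
    (A = 0 ∧ B = 0 ∧ G = 0) ∨ (A ≠ 0 ∧ B = A ∧ G = A) ∨
    (A = 0 ∧ B ≠ 0 ∧ G = B) ∨ (B = 0 ∧ G ≠ 0 ∧ A = G) ∨ (G = 0 ∧ A ≠ 0 ∧ B = A) := by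
  decide

theorem cls2 : ∀ A B G : ZMod 3, (G - A - B) ^ 2 - 4 * (A * B) = 1 →
    ((A = 0 ∧ B ≠ 0 ∧ G = -B) ∨ (B = 0 ∧ G ≠ 0 ∧ A = -G) ∨ (G = 0 ∧ A ≠ 0 ∧ B = -A)) ∨
      ((A = 0 ∧ B = 0 ∧ G ≠ 0) ∨ (B = 0 ∧ G = 0 ∧ A ≠ 0) ∨ (G = 0 ∧ A = 0 ∧ B ≠ 0)) := by
  decide

theorem dom3 {p : ℕ} (hp : Odd p) {D : Type} [CommRing D] [IsDomain D] [CharP D 3] (u : D)
    (hu : u ^ p = 1) (hu1 : u ≠ 1) : u ≠ 0 ∧ 1 + u ≠ 0 ∧ 1 - u ≠ 0 := by
  refine ⟨?_, ?_, ?_⟩
  · rintro rfl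
    rw [zero_pow hp.pos.ne'] at hu
    exact zero_ne_one hu
  · intro h
    have h1 : u = -1 := by linear_combination h
    rw [h1, hp.neg_one_pow] at hu
    have h3 : ((3 : ℕ) : D) = 0 := CharP.cast_eq_zero D 3
    push_cast at h3
    have : (1 : D) = 0 := by linear_combination h3 + hu
    exact one_ne_zero this
  · intro h
    exact hu1 (by linear_combination -h)

section

variable {K : Type} [Field K] [NumberField K]

/-- every integer is congruent to a rational integer modulo a prime above three -/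
theorem cube (hK : Module.finrank ℚ K = 2) (σ : 𝓞 K →+* 𝓞 K)
    (hN : ∀ a : 𝓞 K, ((Algebra.norm ℤ a : ℤ) : 𝓞 K) = a * σ a)
    (hT : ∀ a : 𝓞 K, ((Algebra.trace ℤ (𝓞 K) a : ℤ) : 𝓞 K) = a + σ a)
    (hd : (NumberField.discr K : ZMod 3) = 0 ∨ (NumberField.discr K : ZMod 3) = 1)
    (P : Ideal (𝓞 K)) (hP : P.IsPrime) (h3 : ((3 : ℕ) : 𝓞 K) ∈ P) (w : 𝓞 K) :
    (Ideal.Quotient.mk P w) ^ 3 = Ideal.Quotient.mk P w := by
  haveI := hP
  haveI : CharP (𝓞 K ⧸ P) 3 := charP_quot P hP 3 Nat.prime_three h3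
  obtain ⟨m, hm⟩ := disc_eq hK σ hN hT w
  set u := Ideal.Quotient.mk P w with hu
  obtain ⟨T, hTd⟩ : ∃ T : ℤ, T = Algebra.trace ℤ (𝓞 K) w := ⟨_, rfl⟩
  obtain ⟨N, hNd⟩ : ∃ N : ℤ, N = Algebra.norm ℤ w := ⟨_, rfl⟩
  have h5 : w ^ 2 - ((T : ℤ) : 𝓞 K) * w + ((N : ℤ) : 𝓞 K) = 0 := by
    rw [hTd, hNd, hN, hT]
    ring
  have h4 := congrArg (Ideal.Quotient.mk P) h5
  simp only [map_add, map_sub, map_mul, map_pow, map_intCast, map_zero] at h4
  rw [← hu] at h4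
  rw [← hTd, ← hNd] at hm
  have hk : ∃ k : ℤ, u = (k : 𝓞 K ⧸ P) := by
    have t3 : (3 : 𝓞 K ⧸ P) = 0 := by
      have := CharP.cast_eq_zero (𝓞 K ⧸ P) 3
      exact_mod_cast this
    have e0 : (u + T) ^ 2 = ((T ^ 2 - 4 * N : ℤ) : 𝓞 K ⧸ P) := by
      push_cast
      linear_combination h4 + (T * u + N) * t3
    rcases hd with hd | hd
    · refine ⟨-T, ?_⟩
      have e1 : ((m ^ 2 * NumberField.discr K : ℤ) : 𝓞 K ⧸ P) = ((0 : ℤ) : 𝓞 K ⧸ P) :=
        tr_cast (r := 3) (𝓞 K ⧸ P) _ _ (by push_cast; rw [hd, mul_zero])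
      rw [hm, e1, Int.cast_zero] at e0
      have e2 := (pow_eq_zero_iff two_ne_zero).1 e0
      push_cast
      linear_combination e2
    · have e1 : ((m ^ 2 * NumberField.discr K : ℤ) : 𝓞 K ⧸ P) = ((m ^ 2 : ℤ) : 𝓞 K ⧸ P) :=
        tr_cast (r := 3) (𝓞 K ⧸ P) _ _ (by push_cast; rw [hd, mul_one])
      rw [hm, e1] at e0
      have e2 : (u + T - m) * (u + T + m) = 0 := by
        push_cast at e0
        linear_combination e0
      rcases mul_eq_zero.1 e2 with e3 | e3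
      · refine ⟨m - T, ?_⟩
        push_cast
        linear_combination e3
      · refine ⟨-m - T, ?_⟩
        push_cast
        linear_combination e3
  obtain ⟨k, hk⟩ := hk
  rw [hk, ← Int.cast_pow]
  apply tr_cast (r := 3)
  push_cast
  exact ZMod.pow_card _

/-- the linear relation modulo a prime above three -/
theorem lin_3 (hK : Module.finrank ℚ K = 2) (σ : 𝓞 K →+* 𝓞 K)
    (hN : ∀ a : 𝓞 K, ((Algebra.norm ℤ a : ℤ) : 𝓞 K) = a * σ a)
    (hT : ∀ a : 𝓞 K, ((Algebra.trace ℤ (𝓞 K) a : ℤ) : 𝓞 K) = a + σ a)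
    (hd : (NumberField.discr K : ZMod 3) = 0 ∨ (NumberField.discr K : ZMod 3) = 1)
    (P : Ideal (𝓞 K)) (hP : P.IsPrime) (h3 : ((3 : ℕ) : 𝓞 K) ∈ P) {p : ℕ} (hp : Odd p)
    {x y z : 𝓞 K} (h : x ^ p + y ^ p + z ^ p = 0) : x + y + z ∈ P := by
  obtain ⟨k, rfl⟩ := hp
  have key : ∀ (w : 𝓞 K) (k : ℕ), (Ideal.Quotient.mk P w) ^ (2 * k + 1) =
      Ideal.Quotient.mk P w := by
    intro w k
    have e := cube hK σ hN hT hd P hP h3 w
    induction k with
    | zero => simp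
    | succ k ih =>
      rw [show 2 * (k + 1) + 1 = (2 * k + 1) + 2 by ring, pow_add, ih]
      calc (Ideal.Quotient.mk P w) * (Ideal.Quotient.mk P w) ^ 2 = (Ideal.Quotient.mk P w) ^ 3 := by
            ring
        _ = _ := e
  rw [← Ideal.Quotient.eq_zero_iff_mem]
  have h' := congrArg (Ideal.Quotient.mk P) h
  rw [map_add, map_add, map_pow, map_pow, map_pow, map_zero, key, key, key] at h'
  rw [map_add, map_add, h']

/-- a solution in the first case, not divisible by primes above three -/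
structure Sol3 (p : ℕ) (K : Type) [Field K] [NumberField K] (X Y Z : 𝓞 K) : Prop where
  sol : Sol p K X Y Z
  three : ∀ P : Ideal (𝓞 K), P.IsPrime → ((3 : ℕ) : 𝓞 K) ∈ P →
    X + Y + Z ∈ P ∧ ¬ (X ∈ P ∧ Y ∈ P ∧ Z ∈ P)

theorem Sol3.rot {p : ℕ} {X Y Z : 𝓞 K} (h : Sol3 p K X Y Z) : Sol3 p K Y Z X where
  sol := h.sol.rot
  three := by
    intro P hP h2P
    obtain ⟨h1, h2⟩ := h.three P hP h2P
    refine ⟨?_, fun h => h2 ⟨h.2.2, h.1, h.2.1⟩⟩
    have : Y + Z + X = X + Y + Z := by ring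
    rw [this]
    exact h1

theorem Sol3.swap {p : ℕ} {X Y Z : 𝓞 K} (h : Sol3 p K X Y Z) : Sol3 p K X Z Y where
  sol := MQ.swap h.sol
  three := by
    intro P hP h2P
    obtain ⟨h1, h2⟩ := h.three P hP h2P
    refine ⟨?_, fun h => h2 ⟨h.1, h.2.2, h.2.1⟩⟩
    have : X + Z + Y = X + Y + Z := by ring
    rw [this]
    exact h1

/-- the trace modulo three -/
theorem t3 {p : ℕ} (σ : 𝓞 K →+* 𝓞 K)
    (hN : ∀ a : 𝓞 K, ((Algebra.norm ℤ a : ℤ) : 𝓞 K) = a * σ a)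
    (hT : ∀ a : 𝓞 K, ((Algebra.trace ℤ (𝓞 K) a : ℤ) : 𝓞 K) = a + σ a)
    {X Y Z : 𝓞 K} (s : Sol3 p K X Y Z) :
    ((Algebra.trace ℤ (𝓞 K) (X * σ Y) : ℤ) : ZMod 3) = (Algebra.norm ℤ Z : ℤ) -
      (Algebra.norm ℤ X : ℤ) - (Algebra.norm ℤ Y : ℤ) := by
  have h := norm_rel σ hN hT 3 Nat.prime_three (X := X) (Y := Y) (Z := Z)
    (fun P hP h3P => (s.three P hP h3P).1)
  have h' := (ZMod.intCast_zmod_eq_zero_iff_dvd _ 3).2 h
  push_cast at h'
  linear_combination h'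

/-- the six patterns -/
theorem pats {p : ℕ} [Fact p.Prime] (h5 : 5 ≤ p) (hW : ¬ p ^ 2 ∣ 3 ^ (p - 1) - 1)
    (hK : Module.finrank ℚ K = 2) (σ : 𝓞 K →+* 𝓞 K)
    (hN : ∀ a : 𝓞 K, ((Algebra.norm ℤ a : ℤ) : 𝓞 K) = a * σ a)
    (hT : ∀ a : 𝓞 K, ((Algebra.trace ℤ (𝓞 K) a : ℤ) : 𝓞 K) = a + σ a)
    {E : Type} [Field E] [NumberField E] (c : Cyc p E) {X Y Z : 𝓞 K} (s : Sol3 p K X Y Z)
    (A B G : ℤ) (hA : A = Algebra.norm ℤ X) (hB : B = Algebra.norm ℤ Y)
    (hG : G = Algebra.norm ℤ Z) :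
    ((A : ZMod 3) = 0 → (B : ZMod 3) ≠ 0 → (G : ZMod 3) = B →
      (4 : ZMod p) * G = 2 * (G - A + B)) ∧
    ((A : ZMod 3) = 0 → (B : ZMod 3) = 0 → (G : ZMod 3) ≠ 0 →
      (2 : ZMod p) * G = 2 * (G - A + B)) ∧
    ((A : ZMod 3) = 0 → (B : ZMod 3) ≠ 0 → (G : ZMod 3) = -B →
      (3 : ZMod p) * G = 2 * (G - A + B)) ∧
    ((A : ZMod 3) = 0 → (B : ZMod 3) ≠ 0 → (G : ZMod 3) = 0 →
      (3 : ZMod p) * G = 2 * (G - A + B)) ∧
    ((A : ZMod 3) ≠ 0 → (B : ZMod 3) = A → (G : ZMod 3) = A →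
      (2 : ZMod p) * G = 2 * (G - A + B)) ∧
    ((A : ZMod 3) ≠ 0 → (B : ZMod 3) = -A → (G : ZMod 3) = 0 →
      (2 : ZMod p) * G = 2 * (G - A + B)) := by
  have hpp : p.Prime := Fact.out
  have hp2 : p ≠ 2 := by omega
  have hodd : Odd p := hpp.odd_of_ne_two hp2
  have h3p : 3 ≠ p := by omega
  obtain ⟨t, ht⟩ : ∃ t : ℤ, t = Algebra.trace ℤ (𝓞 K) (X * σ Y) := ⟨_, rfl⟩
  have htt := t3 σ hN hT s
  rw [← ht, ← hA, ← hB, ← hG] at htt
  have R := fun (α β : ℕ) (ε : ℤ) (hε : ε ^ 2 = 1) => relPair hp2 3 Nat.prime_three h3p hW hK σ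
    hN hT c s.sol A B t hA hB ht α β ε hε
  rw [← hA, ← hB, ← hG] at R
  have hC : ∀ (D : Type) [CommRing D] [IsDomain D] [CharP D 3] (a : ℤ),
      (a : ZMod 3) ≠ 0 → (a : D) ≠ 0 := by
    intro D _ _ _ a ha h
    apply ha
    rw [ZMod.intCast_zmod_eq_zero_iff_dvd]
    exact (CharP.intCast_eq_zero_iff D 3 _).1 h
  refine ⟨?_, ?_, ?_, ?_, ?_, ?_⟩
  · intro a1 b1 g1
    have ht0 : (t : ZMod 3) = 0 := by rw [htt, g1, a1]; ring
    have := R 2 0 1 (by norm_num) (by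
      rw [a1, ht0]
      simp only [pow_zero, one_mul, map_zero, zero_mul, zero_add, add_zero, Int.cast_one, map_one]
      ring) (by
      intro D _ _ _ u hu hu1 h0
      have e1 : (A : D) = ((0 : ℤ) : D) := tr_cast (r := 3) D _ _ (by rw [a1]; simp)
      have e2 : (t : D) = ((0 : ℤ) : D) := tr_cast (r := 3) D _ _ (by rw [ht0]; simp)
      obtain ⟨k1, k2, k3⟩ := dom3 hodd u hu hu1
      rw [e1, e2, Int.cast_zero, zero_mul, zero_add, zero_add] at h0
      exact mul_ne_zero (hC D B b1) (pow_ne_zero 2 k1) h0)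
    push_cast at this
    linear_combination this
  · intro a1 b1 g1
    have ht0 : (t : ZMod 3) = (G : ZMod 3) := by rw [htt, a1, b1]; ring
    have := R 0 0 1 (by norm_num) (by
      rw [a1, b1]
      simp only [pow_zero, one_mul, map_zero, zero_mul, zero_add, add_zero, Int.cast_one,
        map_one]) (by
      intro D _ _ _ u hu hu1 h0
      have e1 : (A : D) = ((0 : ℤ) : D) := tr_cast (r := 3) D _ _ (by rw [a1]; simp)
      have e2 : (B : D) = ((0 : ℤ) : D) := tr_cast (r := 3) D _ _ (by rw [b1]; simp)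
      obtain ⟨k1, k2, k3⟩ := dom3 hodd u hu hu1
      rw [e1, e2, Int.cast_zero, zero_mul, add_zero, zero_add] at h0
      exact mul_ne_zero (hC D t (by rw [ht0]; exact g1)) k1 h0)
    push_cast at this
    linear_combination this
  · intro a1 b1 g1
    have ht0 : (t : ZMod 3) = (B : ZMod 3) := by
      rw [htt, a1, g1]
      have : (3 : ZMod 3) = 0 := by decide
      linear_combination (-(B : ZMod 3)) * this
    have := R 1 0 1 (by norm_num) (by
      rw [a1, ht0]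
      simp only [pow_zero, one_mul, map_zero, zero_mul, zero_add, add_zero, Int.cast_one,
        map_one, pow_one]
      ring) (by
      intro D _ _ _ u hu hu1 h0
      have e1 : (A : D) = ((0 : ℤ) : D) := tr_cast (r := 3) D _ _ (by rw [a1]; simp)
      have e2 : (t : D) = (B : D) := tr_cast (r := 3) D _ _ ht0
      obtain ⟨k1, k2, k3⟩ := dom3 hodd u hu hu1
      rw [e1, e2, Int.cast_zero, zero_add] at h0
      exact mul_ne_zero (mul_ne_zero (hC D B b1) k1) k2 (by linear_combination h0))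
    push_cast at this
    linear_combination this
  · intro a1 b1 g1
    have ht0 : (t : ZMod 3) = ((-B : ℤ) : ZMod 3) := by rw [htt, a1, g1]; push_cast; ring
    have := R 1 0 (-1) (by norm_num) (by
      rw [a1, ht0]
      push_cast
      simp only [pow_zero, one_mul, map_zero, zero_mul, zero_add, add_zero, map_one, map_neg,
        pow_one]
      ring) (by
      intro D _ _ _ u hu hu1 h0
      have e1 : (A : D) = ((0 : ℤ) : D) := tr_cast (r := 3) D _ _ (by rw [a1]; simp)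
      have e2 : (t : D) = ((-B : ℤ) : D) := tr_cast (r := 3) D _ _ ht0
      obtain ⟨k1, k2, k3⟩ := dom3 hodd u hu hu1
      rw [e1, e2, Int.cast_zero, zero_add] at h0
      push_cast at h0
      exact mul_ne_zero (mul_ne_zero (hC D B b1) k1) k3 (by linear_combination -h0))
    push_cast at this
    linear_combination this
  · intro a1 b1 g1
    have ht0 : (t : ZMod 3) = ((-A : ℤ) : ZMod 3) := by rw [htt, b1, g1]; push_cast; ring
    have := R 0 0 1 (by norm_num) (by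
      rw [b1]
      simp only [pow_zero, one_mul, Int.cast_one, map_one]) (by
      intro D _ _ _ u hu hu1 h0
      have e1 : (B : D) = (A : D) := tr_cast (r := 3) D _ _ b1
      have e2 : (t : D) = ((-A : ℤ) : D) := tr_cast (r := 3) D _ _ ht0
      obtain ⟨k1, k2, k3⟩ := dom3 hodd u hu hu1
      rw [e1, e2] at h0
      push_cast at h0
      have h3 : (3 : D) = 0 := by
        have := CharP.cast_eq_zero D 3
        exact_mod_cast this
      exact mul_ne_zero (hC D A a1) (pow_ne_zero 2 k2)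
        (by linear_combination h0 + A * u * h3))
    push_cast at this
    linear_combination this
  · intro a1 b1 g1
    have ht0 : (t : ZMod 3) = 0 := by rw [htt, b1, g1]; ring
    have := R 0 0 (-1) (by norm_num) (by
      rw [b1, ht0]
      push_cast
      simp only [pow_zero, one_mul, map_zero, zero_mul, add_zero, map_one, map_neg]
      ring) (by
      intro D _ _ _ u hu hu1 h0
      have e1 : (B : D) = ((-A : ℤ) : D) := tr_cast (r := 3) D _ _ (by rw [b1]; push_cast; rfl)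
      have e2 : (t : D) = ((0 : ℤ) : D) := tr_cast (r := 3) D _ _ (by rw [ht0]; simp)
      obtain ⟨k1, k2, k3⟩ := dom3 hodd u hu hu1
      rw [e1, e2] at h0
      push_cast at h0
      exact mul_ne_zero (mul_ne_zero (hC D A a1) k2) k3 (by linear_combination h0))
    push_cast at this
    linear_combination this

end

end Pool.Agent.Q262.MQ
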